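import Mathlib

/-! # Contractions between finite tuples of vectors (helper80, for MP_216d05_an) -/

namespace Pool.Agent.H80.HD

open Filter Topology Set InnerProductSpace

noncomputable section

set_option linter.unusedSectionVars false

universe u

variable {H : Type u} [NormedAddCommGroup H] [InnerProductSpace ℂ H] [CompleteSpace H]


theorem exists_coord {q : ℕ} (v : Fin q → H) :
    ∃ (W : H →L[ℂ] EuclideanSpace ℂ (Fin q)) (J : EuclideanSpace ℂ (Fin q) →L[ℂ] H),
      (∀ x, ‖W x‖ ≤ ‖x‖) ∧ (∀ u, ‖J u‖ ≤ ‖u‖) ∧ ∀ k, J (W (v k)) = v k := by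
  set g : Fin q → H := gramSchmidtNormed ℂ v with hg
  have hgo : ∀ i j, i ≠ j → ⟪g i, g j⟫_ℂ = 0 := by
    intro i j hij
    rw [hg, gramSchmidtNormed, gramSchmidtNormed, inner_smul_left, inner_smul_right,
      gramSchmidt_orthogonal ℂ v hij, mul_zero, mul_zero]
  have hgn : ∀ i, g i = 0 ∨ ‖g i‖ = 1 := by
    intro i
    by_cases h : g i = 0
    · exact Or.inl h
    · exact Or.inr (gramSchmidtNormed_unit_length' h)
  set J₀ : EuclideanSpace ℂ (Fin q) →ₗ[ℂ] H :=
    { toFun := fun u => ∑ k, u k • g k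
      map_add' := fun u u' => by
        rw [← Finset.sum_add_distrib]
        refine Finset.sum_congr rfl (fun k _ => ?_)
        rw [PiLp.add_apply, add_smul]
      map_smul' := fun c u => by
        rw [RingHom.id_apply, Finset.smul_sum]
        refine Finset.sum_congr rfl (fun k _ => ?_)
        rw [PiLp.smul_apply, smul_assoc] } with hJ₀
  have hJn : ∀ u, ‖J₀ u‖ ≤ 1 * ‖u‖ := by
    intro u
    rw [one_mul]
    have h1 : ‖J₀ u‖ ^ 2 ≤ ‖u‖ ^ 2 := by
      have h2 : ⟪J₀ u, J₀ u⟫_ℂ = ∑ k, ((‖u k‖ ^ 2 * ‖g k‖ ^ 2 : ℝ) : ℂ) := by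
        change ⟪∑ k, u k • g k, ∑ k, u k • g k⟫_ℂ = _
        rw [sum_inner]
        refine Finset.sum_congr rfl (fun i _ => ?_)
        rw [inner_sum, Finset.sum_eq_single i]
        · rw [inner_smul_left, inner_smul_right, inner_self_eq_norm_sq_to_K, ← mul_assoc,
            mul_comm _ (u i), Complex.mul_conj, Complex.normSq_eq_norm_sq]
          push_cast
          rfl
        · intro j _ hj
          rw [inner_smul_left, inner_smul_right, hgo i j (Ne.symm hj), mul_zero, mul_zero]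
        · intro h; exact absurd (Finset.mem_univ i) h
      have h3 : ‖J₀ u‖ ^ 2 = ∑ k, ‖u k‖ ^ 2 * ‖g k‖ ^ 2 := by
        rw [inner_self_eq_norm_sq_to_K] at h2
        apply Complex.ofReal_injective
        push_cast at h2 ⊢
        exact h2
      rw [h3, EuclideanSpace.norm_sq_eq]
      refine Finset.sum_le_sum (fun k _ => ?_)
      rcases hgn k with h | h
      · rw [h, norm_zero]
        simp
      · rw [h]; simp
    exact le_of_sq_le_sq h1 (norm_nonneg _)
  set J : EuclideanSpace ℂ (Fin q) →L[ℂ] H := J₀.mkContinuous 1 hJn with hJ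
  have hJa : ∀ u, J u = ∑ k, u k • g k := fun u => rfl
  set W : H →L[ℂ] EuclideanSpace ℂ (Fin q) := ContinuousLinearMap.adjoint J with hW
  have hJ1 : ‖J‖ ≤ 1 := LinearMap.mkContinuous_norm_le _ zero_le_one _
  have hW1 : ‖W‖ ≤ 1 := by
    rw [hW, LinearIsometryEquiv.norm_map]
    exact hJ1
  have hWk : ∀ x k, W x k = ⟪g k, x⟫_ℂ := by
    intro x k
    have h1 : ⟪EuclideanSpace.single k (1 : ℂ), W x⟫_ℂ = W x k := by
      rw [EuclideanSpace.inner_single_left]
      simp
    rw [← h1, hW, ContinuousLinearMap.adjoint_inner_right, hJa]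
    congr 1
    rw [Finset.sum_eq_single k]
    · simp
    · intro j _ hj
      simp [hj]
    · intro h; exact absurd (Finset.mem_univ k) h
  have hJW : ∀ j, J (W (g j)) = g j := by
    intro j
    rw [hJa, Finset.sum_eq_single j]
    · rw [hWk]
      rcases hgn j with h | h
      · rw [h, smul_zero]
      · rw [inner_self_eq_norm_sq_to_K, h]
        simp
    · intro k _ hk
      rw [hWk, hgo k j hk, zero_smul]
    · intro h; exact absurd (Finset.mem_univ j) h
  refine ⟨W, J, fun x => ?_, fun u => ?_, fun k => ?_⟩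
  · exact (W.le_opNorm x).trans (mul_le_of_le_one_left (norm_nonneg _) hW1)
  · exact (J.le_opNorm u).trans (mul_le_of_le_one_left (norm_nonneg _) hJ1)
  · have h1 : v k ∈ Submodule.span ℂ (Set.range g) := by
      rw [hg, span_gramSchmidtNormed_range, span_gramSchmidt]
      exact Submodule.subset_span ⟨k, rfl⟩
    generalize v k = y at h1 ⊢
    induction h1 using Submodule.span_induction with
    | mem x hx => obtain ⟨j, rfl⟩ := hx; exact hJW j
    | zero => rw [map_zero, map_zero]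
    | add x y _ _ hx hy => rw [map_add, map_add, hx, hy]
    | smul c x _ hx => rw [map_smul, map_smul, hx]

theorem exists_contraction {q : ℕ} (v : ℕ → Fin q → H) {M : ℝ} {A : Set ℕ} (hA : A.Infinite)
    (hv : ∀ n ∈ A, ∀ k, ‖v n k‖ ≤ M) {δ : ℝ} (hδ : 0 < δ) :
    ∃ n ∈ A, ∃ n' ∈ A, n < n' ∧ ∃ T : H →L[ℂ] H, (∀ x, ‖T x‖ ≤ ‖x‖) ∧
      ∀ k, ‖T (v n' k) - v n k‖ ≤ δ := by
  choose W J hW hJ hJW using fun n => exists_coord (v n)
  set e : ℕ → ℕ := Nat.nth (· ∈ A) with he
  have heA : ∀ n, e n ∈ A := fun n => Nat.nth_mem_of_infinite hA n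
  have hem : StrictMono e := Nat.nth_strictMono hA
  set w : ℕ → Fin q → EuclideanSpace ℂ (Fin q) := fun n k => W (e n) (v (e n) k) with hw
  have hb : ∀ n, w n ∈ Metric.closedBall (0 : Fin q → EuclideanSpace ℂ (Fin q)) (max M 0) := by
    intro n
    rw [mem_closedBall_zero_iff, pi_norm_le_iff_of_nonneg (le_max_right _ _)]
    intro k
    exact ((hW _ _).trans (hv _ (heA n) k)).trans (le_max_left _ _)
  obtain ⟨a, -, φ, hφ, ha⟩ := tendsto_subseq_of_bounded Metric.isBounded_closedBall hb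
  have hc := ha.cauchySeq
  rw [Metric.cauchySeq_iff'] at hc
  obtain ⟨N, hN⟩ := hc δ hδ
  have h1 := hN (N + 1) (Nat.le_succ N)
  refine ⟨e (φ N), heA _, e (φ (N + 1)), heA _, hem (hφ (Nat.lt_succ_self N)),
    (J (e (φ N))).comp (W (e (φ (N + 1)))), fun x => (hJ _ _).trans (hW _ _), fun k => ?_⟩
  have h2 : v (e (φ N)) k = J (e (φ N)) (W (e (φ N)) (v (e (φ N)) k)) := (hJW _ k).symm
  rw [ContinuousLinearMap.comp_apply]
  conv_lhs => rw [h2]
  rw [← map_sub]
  refine (hJ _ _).trans ?_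
  have h3 : dist (w (φ (N + 1)) k) (w (φ N) k) ≤ dist (w (φ (N + 1))) (w (φ N)) :=
    dist_le_pi_dist _ _ k
  rw [dist_eq_norm] at h3
  exact h3.trans h1.le

end

end Pool.Agent.H80.HD
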