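import Pool.Agent.H80.HD.Mod
import Pool.Agent.H80.HD.Pig
import Pool.Agent.H83.Dim.Conv

/-! # `ds B(H) ≥ 2` (helper80, joint with helper83, for MP_216d05_an) -/

namespace Pool.Agent.H80.HD

open Filter Topology Set InnerProductSpace Pool.Agent.H83

noncomputable section

set_option linter.unusedSectionVars false

universe u

variable {H : Type u} [NormedAddCommGroup H] [InnerProductSpace ℂ H] [CompleteSpace H]


/-- rank one projections -/
def pr (f : H) : H →L[ℂ] H := rankOne ℂ f f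

theorem pr_apply (f v : H) : pr f v = ⟪f, v⟫_ℂ • f := by
  rw [pr, rankOne_apply]

theorem pr_mem (f : H) : pr f ∈ finRank H :=
  finRank_of_le (Submodule.span ℂ {f}) (fun v => by
    rw [pr_apply]
    exact Submodule.smul_mem _ _ (Submodule.mem_span_singleton_self f))

theorem inner_pr {f : H} (hf : ‖f‖ = 1) (v : H) : ⟪f, pr f v⟫_ℂ = ⟪f, v⟫_ℂ := by
  rw [pr_apply, inner_smul_right, inner_self_eq_norm_sq_to_K, hf]
  simp

variable {L : Ideal (H →L[ℂ] H)} [hmax : L.IsMaximal]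

variable (L) in
/-- the element `a ⊗ ξ` of the kernel, for `a` in `L` -/
def ze (a : H →L[ℂ] H) (ha : a ∈ L) : (Zm (XL L)).carrier :=
  mkZ (XL L) (tm a (mk L 1)) (by rw [mu_tm, act_mk, mul_one, mk_eq_zero]; exact ha)

theorem zi_ze (a : H →L[ℂ] H) (ha : a ∈ L) : zi (XL L) (ze L a ha) = tm a (mk L 1) := rfl

theorem act_ze (a b : H →L[ℂ] H) (ha : a ∈ L) :
    (Zm (XL L)).act b (ze L a ha) = ze L (b * a) (L.mul_mem_left b ha) := by
  apply zi_inj
  rw [zi_act, zi_ze, zi_ze, am_tm]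

theorem ze_congr {a b : H →L[ℂ] H} (ha : a ∈ L) (hb : b ∈ L) (h : a = b) :
    ze L a ha = ze L b hb := by subst h; rfl

theorem ΓZ_ze {g : (H →L[ℂ] H) →L[ℂ] H} (hg : ∀ l ∈ L, g l = 0) (a : H →L[ℂ] H) (ha : a ∈ L) :
    ΓZ L g (ze L a ha) = a (g 1) := by
  rw [ΓZ, ContinuousLinearMap.comp_apply, zi_ze, Gg_tm, gX_mk hg]

theorem no_section (𝔑 : Net L) (hF : finRank H ≤ L)
    (ρ : (Zm (XL L)).carrier →L[ℂ] PT (H →L[ℂ] H) (Zm (XL L)).carrier)
    (hρ : ∀ a z, ρ ((Zm (XL L)).act a z) = am a (ρ z)) (hρ' : ∀ z, mu (Zm (XL L)) (ρ z) = z) :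
    False := by
  classical
  have := GF_neBot 𝔑
  set ε : ℝ := 1 / 16 with hε
  have hε0 : 0 < ε := by norm_num
  have hpr : ∀ f : H, pr f ∈ L := fun f => hF (pr_mem f)
  -- the sequence
  obtain ⟨p, hP, hr⟩ := exists_seq_of_forall_finset_exists
    (fun p : H × ((H →L[ℂ] H) →L[ℂ] H) => Net.Good L [1] ε p.1 p.2)
    (fun p p' => ⟪p.1, p'.1⟫_ℂ = 0 ∧ ‖idt (ΓZ L p'.2) (ρ (ze L (pr p.1) (hpr p.1)))‖ ≤ ε)
    (by
      intro s _
      have h1 : ∀ᶠ p' in GF L, ∀ p ∈ s, ⟪p.1, p'.1⟫_ℂ = 0 ∧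
          ‖idt (ΓZ L p'.2) (ρ (ze L (pr p.1) (hpr p.1)))‖ ≤ ε := by
        rw [Filter.eventually_all_finset]
        intro p _
        have h2 := tendsto_BZ (L := L) (ρ (ze L (pr p.1) (hpr p.1)))
        rw [Metric.tendsto_nhds] at h2
        filter_upwards [ev_orth (L := L) p.1, h2 ε hε0] with p' hp hp'
        rw [dist_zero_right, norm_norm] at hp'
        exact ⟨hp, hp'.le⟩
      obtain ⟨y, hy1, hy2⟩ := ((ev_good (L := L) [1] hε0).and h1).exists
      exact ⟨y, hy1, hy2⟩)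
  set f : ℕ → H := fun n => (p n).1 with hf
  set g : ℕ → ((H →L[ℂ] H) →L[ℂ] H) := fun n => (p n).2 with hg
  have hgood : ∀ n, Net.Good L [1] ε (f n) (g n) := fun n => hP n
  have hf1 : ∀ n, ‖f n‖ = 1 := fun n => (hgood n).norm_f
  have horth : Orthonormal ℂ f := by
    refine ⟨hf1, fun m n hmn => ?_⟩
    rcases lt_or_gt_of_ne hmn with h | h
    · exact (hr m n h).1
    · rw [← inner_conj_symm]
      have h1 : ⟪f n, f m⟫_ℂ = 0 := (hr n m h).1
      rw [h1, map_zero]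
  obtain ⟨A, hA, hPA⟩ := exists_PA_mem 𝔑 horth
  set z := ze L (PA f A) hPA with hz
  have hpz : ∀ m ∈ A, (Zm (XL L)).act (pr (f m)) z = ze L (pr (f m)) (hpr (f m)) := by
    intro m hm
    rw [hz, act_ze]
    apply ze_congr
    ext v
    change pr (f m) (PA f A v) = pr (f m) v
    rw [pr_apply, pr_apply, inner_PA hm]
  set w := ρ z with hw
  have hpw : ∀ m ∈ A, am (pr (f m)) w = ρ (ze L (pr (f m)) (hpr (f m))) := by
    intro m hm
    rw [hw, ← hρ, hpz m hm]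
  obtain ⟨q, b, ζ, hwq⟩ := exists_approx w hε0
  set v : ℕ → Fin q → H := fun n k => ΓZ L (g n) (ζ k) with hv
  set K : ℝ := ∑ k, ‖b k‖ with hK
  have hK0 : 0 ≤ K := Finset.sum_nonneg (fun k _ => norm_nonneg _)
  obtain ⟨n, hn, n', hn', hnn, T, hT, hTv⟩ := exists_contraction v hA
    (M := ∑ k, 2 * ‖ζ k‖) (fun n _ k => (norm_ΓZ_le (hgood n) (ζ k)).trans
      (Finset.single_le_sum (f := fun k => 2 * ‖ζ k‖) (fun k _ => by positivity)
        (Finset.mem_univ k))) (show 0 < ε / (K + 1) by positivity)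
  -- the functional
  have hmain : ∀ (S : H →L[ℂ] H) (m : ℕ), (∀ x, ‖S x‖ ≤ ‖x‖) →
      ‖⟪f n, mH (idt S (idt (ΓZ L (g m)) w))⟫_ℂ - ∑ k, ⟪f n, b k (S (v m k))⟫_ℂ‖ ≤ 2 * ε := by
    intro S m hS
    have h1 : ∑ k, ⟪f n, b k (S (v m k))⟫_ℂ =
        ⟪f n, mH (idt S (idt (ΓZ L (g m)) (∑ k, tm (b k) (ζ k))))⟫_ℂ := by
      rw [map_sum, map_sum, map_sum, inner_sum]
      refine Finset.sum_congr rfl (fun k _ => ?_)
      rw [idt_tm, idt_tm, mH_tm]
    rw [h1, ← inner_sub_right, ← map_sub, ← map_sub, ← map_sub]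
    refine (norm_inner_le_norm _ _).trans ?_
    rw [hf1, one_mul]
    refine (norm_mH_le _).trans ((norm_idt_le _ _).trans ?_)
    have hS1 : ‖S‖ ≤ 1 := ContinuousLinearMap.opNorm_le_bound _ zero_le_one
      (fun x => by rw [one_mul]; exact hS x)
    refine (mul_le_of_le_one_left (norm_nonneg _) hS1).trans ?_
    refine (norm_idt_ΓZ_le (hgood m) _).trans ?_
    gcongr
  have hred : ∀ (S : H →L[ℂ] H) (m : ℕ), ⟪f n, mH (idt S (idt (ΓZ L (g m)) w))⟫_ℂ =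
      ⟪f n, mH (idt S (idt (ΓZ L (g m)) (ρ (ze L (pr (f n)) (hpr (f n))))))⟫_ℂ := by
    intro S m
    rw [← inner_pr (hf1 n), ← mH_am, ← idt_am, ← idt_am, hpw n hn]
  -- off the diagonal
  have hoff : ‖∑ k, ⟪f n, b k (T (v n' k))⟫_ℂ‖ ≤ 3 * ε := by
    have h1 := hmain T n' hT
    rw [hred] at h1
    have h2 : ‖⟪f n, mH (idt T (idt (ΓZ L (g n')) (ρ (ze L (pr (f n)) (hpr (f n))))))⟫_ℂ‖ ≤ ε := by
      refine (norm_inner_le_norm _ _).trans ?_
      rw [hf1, one_mul]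
      refine (norm_mH_le _).trans ((norm_idt_le _ _).trans ?_)
      have hS1 : ‖T‖ ≤ 1 := ContinuousLinearMap.opNorm_le_bound _ zero_le_one
        (fun x => by rw [one_mul]; exact hT x)
      refine (mul_le_of_le_one_left (norm_nonneg _) hS1).trans ?_
      exact (hr n n' hnn).2
    have h3 := norm_sub_norm_le (∑ k, ⟪f n, b k (T (v n' k))⟫_ℂ)
      (⟪f n, mH (idt T (idt (ΓZ L (g n')) (ρ (ze L (pr (f n)) (hpr (f n))))))⟫_ℂ)
    rw [norm_sub_rev] at h1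
    linarith
  -- on the diagonal
  have hon : 1 - 3 * ε ≤ ‖∑ k, ⟪f n, b k (v n k)⟫_ℂ‖ := by
    have h1 := hmain 1 n (fun x => le_rfl)
    have hid : ∀ W : PT (H →L[ℂ] H) H, idt (1 : H →L[ℂ] H) W = W := by
      intro W
      have : (idt (1 : H →L[ℂ] H) : PT (H →L[ℂ] H) H →L[ℂ] PT (H →L[ℂ] H) H) =
          ContinuousLinearMap.id ℂ _ := by
        apply PT_ext
        intro a x
        rw [idt_tm]; rfl
      rw [this]; rfl
    rw [hred, hid, mH_idt_ΓZ, hρ', ΓZ_ze (hgood n).ker, inner_pr (hf1 n)] at h1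
    have h2 : ∀ k, b k ((1 : H →L[ℂ] H) (v n k)) = b k (v n k) := fun k => rfl
    simp only [h2] at h1
    have h3 : ‖(1 : ℂ) - ⟪f n, g n 1⟫_ℂ‖ ≤ ε := by
      have h4 : (1 : ℂ) - ⟪f n, g n 1⟫_ℂ = ⟪f n, f n - g n 1⟫_ℂ := by
        rw [inner_sub_right, inner_self_eq_norm_sq_to_K, hf1]
        simp
      rw [h4]
      refine (norm_inner_le_norm _ _).trans ?_
      rw [hf1, one_mul, norm_sub_rev]
      exact (hgood n).approx 1 (List.mem_singleton_self 1)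
    have h5 : ‖(1 : ℂ)‖ ≤ ‖(1 : ℂ) - ⟪f n, g n 1⟫_ℂ‖ +
        ‖⟪f n, g n 1⟫_ℂ - ∑ k, ⟪f n, b k (v n k)⟫_ℂ‖ + ‖∑ k, ⟪f n, b k (v n k)⟫_ℂ‖ := by
      have h6 : (1 : ℂ) = ((1 : ℂ) - ⟪f n, g n 1⟫_ℂ) +
        (⟪f n, g n 1⟫_ℂ - ∑ k, ⟪f n, b k (v n k)⟫_ℂ) + ∑ k, ⟪f n, b k (v n k)⟫_ℂ := by ring
      conv_lhs => rw [h6]
      exact (norm_add_le _ _).trans (add_le_add (norm_add_le _ _) le_rfl)
    rw [norm_one] at h5
    linarith
  -- comparison
  have hcmp : ‖∑ k, ⟪f n, b k (v n k)⟫_ℂ - ∑ k, ⟪f n, b k (T (v n' k))⟫_ℂ‖ ≤ ε := by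
    rw [← Finset.sum_sub_distrib]
    refine (norm_sum_le _ _).trans ?_
    have h1 : ∀ k, ‖⟪f n, b k (v n k)⟫_ℂ - ⟪f n, b k (T (v n' k))⟫_ℂ‖ ≤ ‖b k‖ * (ε / (K + 1)) := by
      intro k
      rw [← inner_sub_right, ← map_sub]
      refine (norm_inner_le_norm _ _).trans ?_
      rw [hf1, one_mul]
      refine ((b k).le_opNorm _).trans ?_
      gcongr
      rw [norm_sub_rev]
      exact hTv k
    refine (Finset.sum_le_sum (fun k _ => h1 k)).trans ?_
    rw [← Finset.sum_mul, ← hK, ← mul_div_assoc, div_le_iff₀ (by positivity)]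
    nlinarith
  have h1 := norm_sub_norm_le (∑ k, ⟪f n, b k (v n k)⟫_ℂ) (∑ k, ⟪f n, b k (T (v n' k))⟫_ℂ)
  have h2 : 1 - 3 * ε ≤ 3 * ε + ε := by linarith
  norm_num [hε] at h2

theorem irreducible_XL : HD.Irreducible (HD.ofD (XL L)) := by
  constructor
  · refine ⟨1, mk L 1, ?_⟩
    change (XL L).act 1 (mk L 1) ≠ 0
    rw [act_one_XL, Ne, mk_eq_zero]
    exact (Ideal.ne_top_iff_one L).1 hmax.ne_top
  · intro S hS
    set L' : Ideal (H →L[ℂ] H) :=
      { carrier := {b | mk L b ∈ S}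
        add_mem' := by
          intro a b ha hb
          change mk L (a + b) ∈ S
          rw [map_add]
          exact S.add_mem ha hb
        zero_mem' := by
          change mk L 0 ∈ S
          rw [map_zero]
          exact S.zero_mem
        smul_mem' := by
          intro c a ha
          exact hS c _ ha } with hL'
    have h1 : L ≤ L' := by
      intro l hl
      change mk L l ∈ S
      rw [(mk_eq_zero L).2 hl]
      exact S.zero_mem
    by_cases h2 : L' = ⊤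
    · right
      rw [Submodule.eq_top_iff']
      intro x
      obtain ⟨b, rfl⟩ := mk_surj L x
      have h3 : b ∈ L' := by rw [h2]; trivial
      exact h3
    · left
      have h3 : L = L' := hmax.eq_of_le h2 h1
      rw [Submodule.eq_bot_iff]
      intro x hx
      obtain ⟨b, rfl⟩ := mk_surj L x
      refine (mk_eq_zero L).2 ?_
      rw [h3]
      exact hx

/-- conversion of resolutions -/
def ofRes' {A : Type u} [NonUnitalNormedRing A] [NormedSpace ℂ A] (Y : Dim.LMod A)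
    (R : HD.Resolution (HD.ofD Y)) : Dim.Resolution Y where
  P := fun k => HD.toD (R.P k)
  ε := ⟨R.ε.bdd.toContinuousLinearMap, R.ε.map_act⟩
  d := fun k => ⟨(R.d k).bdd.toContinuousLinearMap, (R.d k).map_act⟩
  projective := fun k => HD.proj_toD (R.projective k)
  ε_d := R.ε_d
  d_d := R.d_d
  s₀ := R.s₀_bdd.toContinuousLinearMap
  s := fun k => (R.s_bdd k).toContinuousLinearMap
  ε_s₀ := R.ε_s₀
  split₀ := R.split₀
  split := R.split

/-- **`ds B(H) ≥ 2`** -/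
theorem two_le_ds (hH : ¬ FiniteDimensional ℂ H) : 2 ≤ HD.ds (H →L[ℂ] H) := by
  obtain ⟨L, hmax, hF⟩ := exists_maximal_ideal hH
  obtain ⟨𝔑⟩ := exists_net hmax.ne_top hF
  have h1 : (2 : ℕ∞) ≤ HD.dh (HD.ofD (XL L)) := by
    rw [HD.dh]
    refine le_iInf₂ (fun n hn => ?_)
    obtain ⟨R, hR⟩ := hn
    by_contra hlt
    have hn2 : n < 2 := by
      rw [not_le] at hlt
      exact_mod_cast hlt
    obtain ⟨ρ, hρ, hρ'⟩ := exists_section (X := XL L) (1 : H →L[ℂ] H) one_mul mul_one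
      (act_one_XL L) (ofRes' (XL L) R) (hR 2 hn2)
    exact no_section 𝔑 hF ρ hρ hρ'
  exact h1.trans (le_iSup₂ (f := fun (X : HD.LMod (H →L[ℂ] H)) (_ : HD.Irreducible X) =>
    HD.dh X) (HD.ofD (XL L)) irreducible_XL)

end

end Pool.Agent.H80.HD
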