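import Pool.Agent.H80.HD.PT
import Pool.Agent.H83.KH.Cmp

/-! # Free modules and resolutions of length one (helper80, for MP_216d05_an) -/

namespace Pool.Agent.H80.HD

open Filter Topology Set Pool.Agent.H83

noncomputable section

set_option linter.unusedSectionVars false

universe u

variable {A : Type u} [NonUnitalNormedRing A] [NormedSpace ℂ A] [IsScalarTower ℂ A A]
  [SMulCommClass ℂ A A]

section act

variable {E F : Type u} [NormedAddCommGroup E] [NormedSpace ℂ E] [NormedAddCommGroup F]
  [NormedSpace ℂ F]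

/-- left multiplication on `A ⊗ E` -/
def am (a : A) : PT A E →L[ℂ] PT A E := lift (tm.comp (ContinuousLinearMap.mul ℂ A a))

@[simp] theorem am_tm (a b : A) (x : E) : am a (tm b x) = tm (a * b) x := lift_tm _ _ _

theorem norm_am_le (a : A) (w : PT A E) : ‖am a w‖ ≤ ‖a‖ * ‖w‖ := by
  refine norm_lift_le _ (norm_nonneg a) (fun b x => ?_) w
  change ‖tm (a * b) x‖ ≤ _
  refine (norm_tm_le _ _).trans ?_
  gcongr
  exact norm_mul_le a b

/-- the action on `A ⊗ E` -/
def amL : A →L[ℂ] PT A E →L[ℂ] PT A E :=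
  LinearMap.mkContinuous₂
    (LinearMap.mk₂ ℂ (fun (a : A) (w : PT A E) => am a w)
      (by
        intro a b w
        have h : (am (a + b) : PT A E →L[ℂ] PT A E) = am a + am b := by
          apply PT_ext
          intro c x
          rw [_root_.add_apply, am_tm, am_tm, am_tm, add_mul, map_add]
          rfl
        rw [h]; rfl)
      (by
        intro c a w
        have h : (am (c • a) : PT A E →L[ℂ] PT A E) = c • am a := by
          apply PT_ext
          intro b x
          rw [_root_.smul_apply, am_tm, am_tm, smul_mul_assoc, map_smul]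
          rfl
        rw [h]; rfl)
      (fun a w w' => map_add _ _ _)
      (fun c a w => map_smul _ _ _)) 1
    (fun a w => by
      rw [LinearMap.mk₂_apply, one_mul]
      exact norm_am_le a w)

@[simp] theorem amL_apply (a : A) (w : PT A E) : amL a w = am a w := rfl

variable (A E) in
/-- the free module `A ⊗ E` -/
def free : Dim.LMod A where
  carrier := PT A E
  act := amL
  act_mul := fun a b w => by
    rw [amL_apply, amL_apply, amL_apply]
    have h : (am (a * b) : PT A E →L[ℂ] PT A E) = (am a).comp (am b) := by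
      apply PT_ext
      intro c x
      rw [ContinuousLinearMap.comp_apply, am_tm, am_tm, am_tm, mul_assoc]
    rw [h]; rfl

/-- `1 ⊗ g : A ⊗ E → A ⊗ F` -/
def idt (g : E →L[ℂ] F) : PT A E →L[ℂ] PT A F :=
  lift (((ContinuousLinearMap.compL ℂ E F (PT A F)).flip g).comp tm)

@[simp] theorem idt_tm (g : E →L[ℂ] F) (a : A) (x : E) : idt g (tm a x) = tm a (g x) :=
  lift_tm _ _ _

theorem norm_idt_le (g : E →L[ℂ] F) (w : PT A E) : ‖idt g w‖ ≤ ‖g‖ * ‖w‖ := by
  refine norm_lift_le _ (ContinuousLinearMap.opNorm_nonneg g) (fun a x => ?_) w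
  change ‖tm a (g x)‖ ≤ _
  refine (norm_tm_le _ _).trans ?_
  calc ‖a‖ * ‖g x‖ ≤ ‖a‖ * (‖g‖ * ‖x‖) := by gcongr; exact g.le_opNorm x
    _ = ‖g‖ * ‖a‖ * ‖x‖ := by ring

theorem idt_am (g : E →L[ℂ] F) (a : A) (w : PT A E) : idt g (am a w) = am a (idt g w) := by
  have h : ((idt g : PT A E →L[ℂ] PT A F).comp (am a)) = (am a).comp (idt g) := by
    apply PT_ext
    intro c x
    rw [ContinuousLinearMap.comp_apply, ContinuousLinearMap.comp_apply, am_tm, idt_tm, idt_tm,
      am_tm]
  exact congrArg (fun f => f w) h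

end act

variable (X : Dim.LMod A)

/-- the multiplication map `A ⊗ X → X` -/
def mu : PT A X →L[ℂ] X := lift X.act

@[simp] theorem mu_tm (a : A) (x : X) : mu X (tm a x) = X.act a x := lift_tm _ _ _

theorem mu_am (a : A) (w : PT A X) : mu X (am a w) = X.act a (mu X w) := by
  have h : (mu X).comp (am a) = (X.act a).comp (mu X) := by
    apply PT_ext
    intro c x
    rw [ContinuousLinearMap.comp_apply, ContinuousLinearMap.comp_apply, am_tm, mu_tm, mu_tm,
      X.act_mul]
  exact congrArg (fun f => f w) h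

/-- the multiplication map as a morphism -/
def muM : Dim.Mor (free A X) X where
  map := mu X
  map_act := fun a w => mu_am X a w

/-- the kernel of the multiplication map -/
def Zs : Submodule ℂ (PT A X) := LinearMap.ker (mu X).toLinearMap

theorem mem_Zs {w : PT A X} : w ∈ Zs X ↔ mu X w = 0 := Iff.rfl

theorem am_mem (a : A) {w : PT A X} (hw : w ∈ Zs X) : am a w ∈ Zs X := by
  rw [mem_Zs] at hw ⊢
  rw [mu_am, hw, map_zero]

/-- the kernel of the multiplication map as a module -/
def Zm : Dim.LMod A where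
  carrier := Zs X
  cpl := (ContinuousLinearMap.isClosed_ker (mu X)).completeSpace_coe
  act := Dim.restrAct amL (Zs X) (fun a _ hw => am_mem X a hw)
  act_mul := fun a b w => Subtype.ext ((free A X).act_mul a b _)

/-- inclusion -/
def zi : (Zm X).carrier →L[ℂ] PT A X := (Zs X).subtypeL

theorem zi_act (a : A) (z : (Zm X).carrier) : zi X ((Zm X).act a z) = am a (zi X z) := rfl

theorem zi_inj {z z' : (Zm X).carrier} (h : zi X z = zi X z') : z = z' := Subtype.ext h

theorem mu_zi (z : (Zm X).carrier) : mu X (zi X z) = 0 := (show ↥(Zs X) from z).2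

/-- elements of the kernel -/
def mkZ (w : PT A X) (hw : mu X w = 0) : (Zm X).carrier := (⟨w, hw⟩ : ↥(Zs X))

@[simp] theorem zi_mkZ (w : PT A X) (hw : mu X w = 0) : zi X (mkZ X w hw) = w := rfl

section main

variable {X}
variable (e : A) (he : ∀ a, e * a = a) (he' : ∀ a, a * e = a)

theorem am_e {E : Type u} [NormedAddCommGroup E] [NormedSpace ℂ E] (e : A)
    (he : ∀ a, e * a = a) (w : PT A E) : am e w = w := by
  have h : (am e : PT A E →L[ℂ] PT A E) = ContinuousLinearMap.id ℂ _ := by
    apply PT_ext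
    intro c x
    rw [am_tm, he]; rfl
  rw [h]; rfl

include he he' in
theorem exists_section (hX : ∀ x, X.act e x = x) (R : Dim.Resolution X)
    (hR : Subsingleton (R.P 2).carrier) :
    ∃ ρ : (Zm X).carrier →L[ℂ] PT A (Zm X).carrier,
      (∀ a z, ρ ((Zm X).act a z) = am a (ρ z)) ∧ ∀ z, mu (Zm X) (ρ z) = z := by
  -- the map to `P 0`
  set α : PT A X →L[ℂ] R.P 0 :=
    lift (((ContinuousLinearMap.compL ℂ X (R.P 0) (R.P 0)).flip R.s₀).comp (R.P 0).act) with hα
  have α_tm : ∀ a x, α (tm a x) = (R.P 0).act a (R.s₀ x) := fun a x => lift_tm _ _ _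
  have α_act : ∀ a w, α (am a w) = (R.P 0).act a (α w) := by
    intro a w
    have h : α.comp (am a) = ((R.P 0).act a).comp α := by
      apply PT_ext
      intro c x
      rw [ContinuousLinearMap.comp_apply, ContinuousLinearMap.comp_apply, am_tm, α_tm, α_tm,
        (R.P 0).act_mul]
    exact congrArg (fun f => f w) h
  have εα : ∀ w, R.ε.map (α w) = mu X w := by
    intro w
    have h : R.ε.map.comp α = mu X := by
      apply PT_ext
      intro c x
      rw [ContinuousLinearMap.comp_apply, α_tm, mu_tm, R.ε.map_act, R.ε_s₀]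
    exact congrArg (fun f => f w) h
  -- the map from `P 0`
  obtain ⟨β, hβ⟩ := KH.lift_left (muM X) R.ε (R.projective 0) ((tm e).comp R.ε.map) (fun p => by
    change mu X (tm e (R.ε.map p)) = _
    rw [mu_tm, hX])
  set b : (R.P 0).carrier →L[ℂ] PT A X := β.map with hb
  have b_act : ∀ a p, b ((R.P 0).act a p) = am a (b p) := β.map_act
  have hβ' : ∀ p, mu X (b p) = R.ε.map p := hβ
  -- the map from `P 1`
  have hg0 : ∀ p, mu X (b ((R.d 0).map p)) = 0 := fun p => by rw [hβ', R.ε_d]
  set g : Dim.Mor (R.P 1) (Zm X) :=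
    { map := (b.comp (R.d 0).map).codRestrict (Zs X) (fun p => hg0 p)
      map_act := fun a p => by
        apply zi_inj
        change b ((R.d 0).map ((R.P 1).act a p)) = am a (b ((R.d 0).map p))
        rw [(R.d 0).map_act, b_act] } with hgdef
  have hg : ∀ p, zi X (g.map p) = b ((R.d 0).map p) := fun p => rfl
  obtain ⟨β', hβ1⟩ := KH.lift_left (muM (Zm X)) g (R.projective 1) ((tm e).comp g.map)
    (fun p => by
      change mu (Zm X) (tm e (g.map p)) = _
      rw [mu_tm]
      apply zi_inj
      rw [zi_act, am_e e he])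
  set b' : (R.P 1).carrier →L[ℂ] PT A (Zm X).carrier := β'.map with hb'
  have b'_act : ∀ a p, b' ((R.P 1).act a p) = am a (b' p) := β'.map_act
  have hβ1' : ∀ p, mu (Zm X) (b' p) = g.map p := hβ1
  -- the map `γ`
  have hγ0 : ∀ x, mu X (b (α (tm e x)) - tm e x) = 0 := fun x => by
    rw [map_sub, hβ', εα, mu_tm, sub_self]
  set δ : X.carrier →L[ℂ] (Zm X).carrier :=
    ((b.comp (α.comp (tm e)) - tm e).codRestrict (Zs X) (fun x => hγ0 x)) with hδ
  have zδ : ∀ x, zi X (δ x) = b (α (tm e x)) - tm e x := fun x => rfl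
  set γ : PT A X →L[ℂ] PT A (Zm X).carrier := idt δ with hγ
  have μγ : ∀ w, zi X (mu (Zm X) (γ w)) = b (α w) - w := by
    intro w
    have h : (zi X).comp ((mu (Zm X)).comp γ) =
        b.comp α - ContinuousLinearMap.id ℂ (PT A X) := by
      apply PT_ext
      intro c x
      rw [ContinuousLinearMap.comp_apply, ContinuousLinearMap.comp_apply, hγ, idt_tm, mu_tm,
        zi_act, zδ, map_sub, am_tm, he', _root_.sub_apply, ContinuousLinearMap.comp_apply,
        ContinuousLinearMap.id_apply]
      congr 1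
      rw [← b_act, ← α_act, am_tm, he']
    exact congrArg (fun f => f w) h
  -- `s 0` on the kernel
  have hinj : ∀ p, R.s 0 ((R.d 0).map p) = p := by
    intro p
    have h1 := R.split 0 p
    have h2 : R.s (0 + 1) p = 0 := Subsingleton.elim (α := (R.P 2).carrier) _ _
    rw [h2, map_zero, add_zero] at h1
    exact h1
  have hdz : ∀ z, (R.d 0).map (R.s 0 (α (zi X z))) = α (zi X z) := by
    intro z
    have h1 := R.split₀ (α (zi X z))
    rw [εα, mu_zi, map_zero, zero_add] at h1
    exact h1
  have hact : ∀ a z, R.s 0 (α (zi X ((Zm X).act a z))) = (R.P 1).act a (R.s 0 (α (zi X z))) := by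
    intro a z
    rw [← hinj ((R.P 1).act a (R.s 0 (α (zi X z)))), (R.d 0).map_act, hdz, zi_act, α_act]
  refine ⟨b'.comp ((R.s 0).comp (α.comp (zi X))) - γ.comp (zi X), ?_, ?_⟩
  · intro a z
    have h1 : b' (R.s 0 (α (zi X ((Zm X).act a z)))) =
        am a (b' (R.s 0 (α (zi X z)))) := by
      rw [hact, b'_act]
    have h2 : γ (zi X ((Zm X).act a z)) = am a (γ (zi X z)) := by
      rw [zi_act, hγ, idt_am]
    rw [_root_.sub_apply, _root_.sub_apply, map_sub]
    exact congrArg₂ (· - ·) h1 h2
  · intro z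
    rw [_root_.sub_apply, map_sub]
    apply zi_inj
    rw [map_sub]
    have h1 : zi X (mu (Zm X) ((b'.comp ((R.s 0).comp (α.comp (zi X)))) z)) =
        b (α (zi X z)) := by
      change zi X (mu (Zm X) (b' (R.s 0 (α (zi X z))))) = _
      rw [hβ1', hg, hdz]
    rw [h1, ContinuousLinearMap.comp_apply, μγ, sub_sub_cancel]

end main

end

end Pool.Agent.H80.HD
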