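import Pool.Agent.H80.HD.Net

/-! # The limit form and Glimm's lemma (helper80, for MP_216d05_an) -/

namespace Pool.Agent.H80.HD

open Filter Topology Set InnerProductSpace

noncomputable section

set_option linter.unusedSectionVars false

universe u

variable {H : Type u} [NormedAddCommGroup H] [InnerProductSpace ℂ H] [CompleteSpace H]


variable {L : Ideal (H →L[ℂ] H)} (𝔑 : Net L)

namespace Net

theorem exists_lim (a b : H →L[ℂ] H) :
    ∃ z : ℂ, Tendsto (fun i => ⟪a (𝔑.x i), b (𝔑.x i)⟫_ℂ) 𝔑.U (𝓝 z) := by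
  have h : ∀ i, ⟪a (𝔑.x i), b (𝔑.x i)⟫_ℂ ∈ Metric.closedBall (0 : ℂ) (‖a‖ * ‖b‖) := by
    intro i
    rw [mem_closedBall_zero_iff]
    refine (norm_inner_le_norm _ _).trans ?_
    have h1 := a.le_opNorm (𝔑.x i)
    have h2 := b.le_opNorm (𝔑.x i)
    rw [𝔑.norm_x, mul_one] at h1 h2
    gcongr
  obtain ⟨z, -, hz⟩ := (isCompact_closedBall (0 : ℂ) (‖a‖ * ‖b‖)).ultrafilter_le_nhds
    (𝔑.U.map (fun i => ⟪a (𝔑.x i), b (𝔑.x i)⟫_ℂ)) (by
      rw [le_principal_iff]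
      exact Filter.mem_map.2 (Filter.univ_mem' h))
  exact ⟨z, hz⟩

/-- the limit form -/
def κ (a b : H →L[ℂ] H) : ℂ := (𝔑.exists_lim a b).choose

theorem tendsto_κ (a b : H →L[ℂ] H) :
    Tendsto (fun i => ⟪a (𝔑.x i), b (𝔑.x i)⟫_ℂ) 𝔑.U (𝓝 (𝔑.κ a b)) :=
  (𝔑.exists_lim a b).choose_spec

theorem κ_unique {a b : H →L[ℂ] H} {z : ℂ}
    (h : Tendsto (fun i => ⟪a (𝔑.x i), b (𝔑.x i)⟫_ℂ) 𝔑.U (𝓝 z)) : 𝔑.κ a b = z :=
  tendsto_nhds_unique (𝔑.tendsto_κ a b) h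

theorem κ_add (a b c : H →L[ℂ] H) : 𝔑.κ a (b + c) = 𝔑.κ a b + 𝔑.κ a c := by
  apply 𝔑.κ_unique
  have h := (𝔑.tendsto_κ a b).add (𝔑.tendsto_κ a c)
  refine h.congr (fun i => ?_)
  rw [_root_.add_apply, inner_add_right]

theorem κ_smul (a b : H →L[ℂ] H) (c : ℂ) : 𝔑.κ a (c • b) = c * 𝔑.κ a b := by
  apply 𝔑.κ_unique
  have h := (𝔑.tendsto_κ a b).const_mul c
  refine h.congr (fun i => ?_)
  rw [_root_.smul_apply, inner_smul_right]

theorem κ_conj (a b : H →L[ℂ] H) : 𝔑.κ b a = (starRingEnd ℂ) (𝔑.κ a b) := by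
  apply 𝔑.κ_unique
  have h := (Complex.continuous_conj.tendsto _).comp (𝔑.tendsto_κ a b)
  refine h.congr (fun i => ?_)
  exact inner_conj_symm _ _

theorem norm_κ_le (a b : H →L[ℂ] H) : ‖𝔑.κ a b‖ ≤ ‖a‖ * ‖b‖ := by
  refine le_of_tendsto ((𝔑.tendsto_κ a b).norm) (Eventually.of_forall (fun i => ?_))
  refine (norm_inner_le_norm _ _).trans ?_
  have h1 := a.le_opNorm (𝔑.x i)
  have h2 := b.le_opNorm (𝔑.x i)
  rw [𝔑.norm_x, mul_one] at h1 h2
  gcongr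

/-- the limit form as a functional -/
def κL (a : H →L[ℂ] H) : (H →L[ℂ] H) →L[ℂ] ℂ :=
  LinearMap.mkContinuous
    { toFun := fun b => 𝔑.κ a b
      map_add' := 𝔑.κ_add a
      map_smul' := fun c b => 𝔑.κ_smul a b c } ‖a‖ (fun b => 𝔑.norm_κ_le a b)

@[simp] theorem κL_apply (a b : H →L[ℂ] H) : 𝔑.κL a b = 𝔑.κ a b := rfl

theorem κ_L {l : H →L[ℂ] H} (hl : l ∈ L) (a : H →L[ℂ] H) : 𝔑.κ a l = 0 := by
  apply 𝔑.κ_unique
  rw [tendsto_zero_iff_norm_tendsto_zero]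
  have h1 : Tendsto (fun i => ‖a‖ * ‖l (𝔑.x i)‖) 𝔑.U (𝓝 0) := by
    have := (𝔑.lim l hl).const_mul ‖a‖
    rwa [mul_zero] at this
  refine squeeze_zero (fun i => norm_nonneg _) (fun i => ?_) h1
  refine (norm_inner_le_norm _ _).trans ?_
  have h2 := a.le_opNorm (𝔑.x i)
  rw [𝔑.norm_x, mul_one] at h2
  gcongr

theorem tendsto_norm_sq (a : H →L[ℂ] H) :
    Tendsto (fun i => ‖a (𝔑.x i)‖ ^ 2) 𝔑.U (𝓝 (𝔑.κ a a).re) := by
  have h := (Complex.continuous_re.tendsto _).comp (𝔑.tendsto_κ a a)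
  refine h.congr (fun i => ?_)
  change (⟪a (𝔑.x i), a (𝔑.x i)⟫_ℂ).re = _
  rw [inner_self_eq_norm_sq_to_K]
  norm_cast

theorem κ_self_re_nonneg (a : H →L[ℂ] H) : 0 ≤ (𝔑.κ a a).re :=
  ge_of_tendsto (𝔑.tendsto_norm_sq a) (Eventually.of_forall (fun i => by positivity))

theorem κ_self_im (a : H →L[ℂ] H) : (𝔑.κ a a).im = 0 := by
  have h := congrArg Complex.im (𝔑.κ_conj a a)
  rw [Complex.conj_im] at h
  linarith

theorem κ_self_eq (a : H →L[ℂ] H) : 𝔑.κ a a = ((𝔑.κ a a).re : ℂ) :=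
  Complex.ext (by simp) (by simp [𝔑.κ_self_im])

theorem κ_one : 𝔑.κ 1 1 = 1 := by
  apply 𝔑.κ_unique
  refine tendsto_const_nhds.congr (fun i => ?_)
  change (1 : ℂ) = ⟪𝔑.x i, 𝔑.x i⟫_ℂ
  rw [inner_self_eq_norm_sq_to_K, 𝔑.norm_x]
  norm_num

variable [hmax : L.IsMaximal]

include hmax in
theorem mem_of_tendsto {a : H →L[ℂ] H}
    (ha : Tendsto (fun i => ‖a (𝔑.x i)‖) 𝔑.U (𝓝 0)) : a ∈ L := by
  set L' : Ideal (H →L[ℂ] H) :=
    { carrier := {a | Tendsto (fun i => ‖a (𝔑.x i)‖) 𝔑.U (𝓝 0)}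
      add_mem' := by
        intro a b ha hb
        have h1 : Tendsto (fun i => ‖a (𝔑.x i)‖ + ‖b (𝔑.x i)‖) 𝔑.U (𝓝 0) := by
          have := Tendsto.add (show Tendsto (fun i => ‖a (𝔑.x i)‖) 𝔑.U (𝓝 0) from ha)
            (show Tendsto (fun i => ‖b (𝔑.x i)‖) 𝔑.U (𝓝 0) from hb)
          rwa [add_zero] at this
        exact squeeze_zero (fun i => norm_nonneg _) (fun i => norm_add_le _ _) h1
      zero_mem' := by
        change Tendsto (fun i => ‖(0 : H →L[ℂ] H) (𝔑.x i)‖) 𝔑.U (𝓝 0)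
        simp
      smul_mem' := by
        intro c a ha
        have h1 : Tendsto (fun i => ‖c‖ * ‖a (𝔑.x i)‖) 𝔑.U (𝓝 0) := by
          have := (show Tendsto (fun i => ‖a (𝔑.x i)‖) 𝔑.U (𝓝 0) from ha).const_mul ‖c‖
          rwa [mul_zero] at this
        exact squeeze_zero (fun i => norm_nonneg _) (fun i => c.le_opNorm _) h1 } with hL'
  have h1 : L ≤ L' := fun l hl => 𝔑.lim l hl
  have h2 : L' ≠ ⊤ := by
    rw [Ne, Ideal.eq_top_iff_one]
    intro h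
    have h3 : Tendsto (fun i => ‖(1 : H →L[ℂ] H) (𝔑.x i)‖) 𝔑.U (𝓝 0) := h
    have h4 : Tendsto (fun i => ‖(1 : H →L[ℂ] H) (𝔑.x i)‖) 𝔑.U (𝓝 1) := by
      refine tendsto_const_nhds.congr (fun i => ?_)
      exact (𝔑.norm_x i).symm
    exact zero_ne_one (tendsto_nhds_unique h3 h4)
  have h3 : L = L' := hmax.eq_of_le h2 h1
  rw [h3]
  exact ha

include hmax in
theorem mem_of_κ {a : H →L[ℂ] H} (ha : 𝔑.κ a a = 0) : a ∈ L := by
  apply 𝔑.mem_of_tendsto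
  have h := 𝔑.tendsto_norm_sq a
  rw [ha, Complex.zero_re] at h
  have h1 := h.sqrt
  rw [Real.sqrt_zero] at h1
  refine h1.congr (fun i => ?_)
  exact Real.sqrt_sq (norm_nonneg _)

/-- finite orthonormal families spanning a finite set modulo `L` -/
theorem exists_family (C : List (H →L[ℂ] H)) :
    ∃ (J : Type) (_ : Fintype J) (_ : DecidableEq J) (e : J → H →L[ℂ] H),
      (∀ i j, 𝔑.κ (e i) (e j) = if i = j then 1 else 0) ∧
      ∀ c ∈ C, c - ∑ i, 𝔑.κ (e i) c • e i ∈ L := by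
  induction C with
  | nil => exact ⟨Empty, inferInstance, inferInstance, Empty.elim, fun i => i.elim,
      fun c hc => absurd hc List.not_mem_nil⟩
  | cons a C ih =>
      obtain ⟨J, _, _, e, he, hC⟩ := ih
      set b := a - ∑ i, 𝔑.κ (e i) a • e i with hb
      have hκb : ∀ i, 𝔑.κ (e i) b = 0 := by
        intro i
        have h1 : 𝔑.κL (e i) b = 0 := by
          rw [hb, map_sub, map_sum]
          simp only [map_smul, κL_apply, he, smul_eq_mul, mul_ite, mul_one, mul_zero]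
          rw [Finset.sum_ite_eq]
          simp
        exact h1
      by_cases h0 : 𝔑.κ b b = 0
      · refine ⟨J, inferInstance, inferInstance, e, he, fun c hc => ?_⟩
        rcases List.mem_cons.1 hc with rfl | hc
        · exact 𝔑.mem_of_κ h0
        · exact hC c hc
      · set t : ℝ := (𝔑.κ b b).re with ht
        have ht0 : 0 < t := by
          refine lt_of_le_of_ne (𝔑.κ_self_re_nonneg b) (fun h => h0 ?_)
          rw [𝔑.κ_self_eq, ← ht, ← h]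
          simp
        set s : ℝ := (Real.sqrt t)⁻¹ with hs
        have hst : s * s * t = 1 := by
          rw [hs, ← mul_inv, Real.mul_self_sqrt ht0.le, inv_mul_cancel₀ ht0.ne']
        set b' : H →L[ℂ] H := (s : ℂ) • b with hb'
        have hb'b' : 𝔑.κ b' b' = 1 := by
          rw [hb', 𝔑.κ_smul, 𝔑.κ_conj, 𝔑.κ_smul, map_mul, ← 𝔑.κ_conj, Complex.conj_ofReal,
            𝔑.κ_self_eq, ← ht, ← mul_assoc]
          exact_mod_cast hst
        have heb' : ∀ i, 𝔑.κ (e i) b' = 0 := fun i => by rw [hb', 𝔑.κ_smul, hκb, mul_zero]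
        have hb'e : ∀ i, 𝔑.κ b' (e i) = 0 := fun i => by rw [𝔑.κ_conj, heb', map_zero]
        refine ⟨Option J, inferInstance, inferInstance, fun o => o.elim b' e, ?_, ?_⟩
        · intro i j
          cases i with
          | none =>
            cases j with
            | none => simpa using hb'b'
            | some j => simpa using hb'e j
          | some i =>
            cases j with
            | none => simpa using heb' i
            | some j => simpa using he i j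
        · intro c hc
          rw [Fintype.sum_option]
          change c - (𝔑.κ b' c • b' + ∑ i, 𝔑.κ (e i) c • e i) ∈ L
          rcases List.mem_cons.1 hc with rfl | hc
          · have h1 : 𝔑.κ b' c = ((s * t : ℝ) : ℂ) := by
              have h2 : 𝔑.κL b' c = 𝔑.κL b' b := by
                rw [hb, map_sub, map_sum]
                simp only [map_smul, κL_apply, hb'e, smul_zero, Finset.sum_const_zero, sub_zero]
              rw [κL_apply, κL_apply] at h2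
              rw [h2, 𝔑.κ_conj, hb', 𝔑.κ_smul, map_mul, ← 𝔑.κ_conj, Complex.conj_ofReal,
                𝔑.κ_self_eq, ← ht]
              push_cast
              ring
            have h3 : 𝔑.κ b' c • b' = b := by
              rw [h1, hb', smul_smul, ← Complex.ofReal_mul]
              have : s * t * s = 1 := by rw [← hst]; ring
              rw [this, Complex.ofReal_one, one_smul]
            have h4 : c - (𝔑.κ b' c • b' + ∑ i, 𝔑.κ (e i) c • e i) = 0 := by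
              rw [h3, hb]
              abel
            rw [h4]
            exact L.zero_mem
          · have h1 : 𝔑.κ b' c = 0 := by
              have h2 : c = (c - ∑ i, 𝔑.κ (e i) c • e i) + ∑ i, 𝔑.κ (e i) c • e i := by abel
              have h3 : 𝔑.κL b' c = 0 := by
                rw [h2, map_add, map_sum, κL_apply, 𝔑.κ_L (hC c hc)]
                simp only [map_smul, κL_apply, hb'e, smul_zero, Finset.sum_const_zero, add_zero]
              exact h3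
            rw [h1, zero_smul, zero_add]
            exact hC c hc

/-- Bessel's inequality -/
theorem bessel {J : Type} [Fintype J] [DecidableEq J] (e : J → H →L[ℂ] H)
    (he : ∀ i j, 𝔑.κ (e i) (e j) = if i = j then 1 else 0) (b : H →L[ℂ] H) :
    ∑ i, ‖𝔑.κ (e i) b‖ ^ 2 ≤ ‖b‖ ^ 2 := by
  set r := b - ∑ i, 𝔑.κ (e i) b • e i with hr
  have h0 := 𝔑.κ_self_re_nonneg r
  have h1 : ∀ i, 𝔑.κ (e i) r = 0 := by
    intro i
    have h1 : 𝔑.κL (e i) r = 0 := by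
      rw [hr, map_sub, map_sum]
      simp only [map_smul, κL_apply, he, smul_eq_mul, mul_ite, mul_one, mul_zero]
      rw [Finset.sum_ite_eq]
      simp
    exact h1
  have h2 : 𝔑.κ r r = 𝔑.κ r b := by
    have h3 : 𝔑.κL r r = 𝔑.κL r b := by
      conv_lhs => rw [hr]
      rw [map_sub, map_sum]
      have : ∀ i, 𝔑.κ r (e i) = 0 := fun i => by rw [𝔑.κ_conj, h1, map_zero]
      simp only [map_smul, κL_apply, ← hr, this, smul_zero, Finset.sum_const_zero, sub_zero]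
    exact h3
  have h3 : 𝔑.κ b r = 𝔑.κ b b - ∑ i, (((‖𝔑.κ (e i) b‖ ^ 2 : ℝ)) : ℂ) := by
    have h4 : 𝔑.κL b r = 𝔑.κ b b - ∑ i, (((‖𝔑.κ (e i) b‖ ^ 2 : ℝ)) : ℂ) := by
      rw [hr, map_sub, map_sum]
      simp only [map_smul, κL_apply, smul_eq_mul]
      congr 1
      refine Finset.sum_congr rfl (fun i _ => ?_)
      rw [𝔑.κ_conj (e i) b, Complex.mul_conj]
      congr 1
      rw [Complex.normSq_eq_norm_sq]
    exact h4
  have h4 : (𝔑.κ r r).re = (𝔑.κ b b).re - ∑ i, ‖𝔑.κ (e i) b‖ ^ 2 := by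
    rw [h2, 𝔑.κ_conj, Complex.conj_re, h3, Complex.sub_re]
    congr 1
    rw [← Complex.ofReal_sum, Complex.ofReal_re]
  have h5 : (𝔑.κ b b).re ≤ ‖b‖ ^ 2 := by
    refine (Complex.re_le_norm _).trans ((𝔑.norm_κ_le b b).trans (le_of_eq ?_))
    ring
  linarith

/-- the conditions on the pair `(f, g)` -/
structure Good (L : Ideal (H →L[ℂ] H)) (C : List (H →L[ℂ] H)) (η : ℝ) (f : H)
    (g : (H →L[ℂ] H) →L[ℂ] H) : Prop where
  norm_f : ‖f‖ = 1
  ker : ∀ l ∈ L, g l = 0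
  norm_g : ∀ b, ‖g b‖ ≤ 2 * ‖b‖
  approx : ∀ c ∈ C, ‖g c - c f‖ ≤ η

theorem Good.mono {C C' : List (H →L[ℂ] H)} {η η' : ℝ} {f : H} {g : (H →L[ℂ] H) →L[ℂ] H}
    (h : Good L C η f g) (hC : ∀ c ∈ C', c ∈ C) (hη : η ≤ η') : Good L C' η' f g :=
  ⟨h.norm_f, h.ker, h.norm_g, fun c hc => (h.approx c (hC c hc)).trans hη⟩

/-- the map `g` built from an orthonormal family and a vector -/
def gmap {J : Type} [Fintype J] (e : J → H →L[ℂ] H) (f : H) : (H →L[ℂ] H) →L[ℂ] H :=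
  ∑ i, (𝔑.κL (e i)).smulRight (e i f)

theorem gmap_apply {J : Type} [Fintype J] (e : J → H →L[ℂ] H) (f : H) (b : H →L[ℂ] H) :
    𝔑.gmap e f b = ∑ i, 𝔑.κ (e i) b • e i f := by
  rw [gmap, _root_.sum_apply]
  rfl

theorem norm_sum_le_of_gram {J : Type} [Fintype J] [DecidableEq J] (y : J → H) {θ : ℝ}
    (hθ : 0 ≤ θ) (hθ' : θ * Fintype.card J ≤ 3)
    (hy : ∀ i j, ‖⟪y i, y j⟫_ℂ - (if i = j then 1 else 0)‖ ≤ θ) (c : J → ℂ) :
    ‖∑ i, c i • y i‖ ^ 2 ≤ 4 * ∑ i, ‖c i‖ ^ 2 := by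
  have h1 : ⟪∑ i, c i • y i, ∑ i, c i • y i⟫_ℂ =
      ∑ i, ∑ j, (starRingEnd ℂ) (c i) * c j * ⟪y i, y j⟫_ℂ := by
    rw [sum_inner]
    refine Finset.sum_congr rfl (fun i _ => ?_)
    rw [inner_sum]
    refine Finset.sum_congr rfl (fun j _ => ?_)
    rw [inner_smul_left, inner_smul_right]
    ring
  have h2 : ∑ i, ∑ j, (starRingEnd ℂ) (c i) * c j * ⟪y i, y j⟫_ℂ =
      ∑ i, ((‖c i‖ ^ 2 : ℝ) : ℂ) + ∑ i, ∑ j, (starRingEnd ℂ) (c i) * c j *
        (⟪y i, y j⟫_ℂ - (if i = j then 1 else 0)) := by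
    rw [← Finset.sum_add_distrib]
    refine Finset.sum_congr rfl (fun i _ => ?_)
    have h3 : ∀ j, (starRingEnd ℂ) (c i) * c j * ⟪y i, y j⟫_ℂ =
        (if i = j then (starRingEnd ℂ) (c i) * c j else 0) + (starRingEnd ℂ) (c i) * c j *
        (⟪y i, y j⟫_ℂ - (if i = j then 1 else 0)) := by
      intro j
      split_ifs <;> ring
    rw [Finset.sum_congr rfl (fun j _ => h3 j), Finset.sum_add_distrib, Finset.sum_ite_eq]
    simp only [Finset.mem_univ, if_true]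
    congr 1
    rw [mul_comm, Complex.mul_conj, Complex.normSq_eq_norm_sq]
  have h3 : ‖∑ i, c i • y i‖ ^ 2 = ‖⟪∑ i, c i • y i, ∑ i, c i • y i⟫_ℂ‖ := by
    rw [inner_self_eq_norm_sq_to_K]
    simp
  rw [h3, h1, h2]
  have h4 : ‖∑ i, ((‖c i‖ ^ 2 : ℝ) : ℂ)‖ ≤ ∑ i, ‖c i‖ ^ 2 := by
    refine (norm_sum_le _ _).trans (le_of_eq ?_)
    refine Finset.sum_congr rfl (fun i _ => ?_)
    rw [Complex.norm_real, Real.norm_of_nonneg (by positivity)]
  have h5 : ‖∑ i, ∑ j, (starRingEnd ℂ) (c i) * c j *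
      (⟪y i, y j⟫_ℂ - (if i = j then 1 else 0))‖ ≤ θ * (∑ i, ‖c i‖) ^ 2 := by
    refine (norm_sum_le _ _).trans ?_
    rw [sq, Finset.sum_mul, Finset.mul_sum]
    refine Finset.sum_le_sum (fun i _ => ?_)
    refine (norm_sum_le _ _).trans ?_
    rw [Finset.mul_sum, Finset.mul_sum]
    refine Finset.sum_le_sum (fun j _ => ?_)
    rw [norm_mul, norm_mul, RCLike.norm_conj]
    calc ‖c i‖ * ‖c j‖ * ‖⟪y i, y j⟫_ℂ - (if i = j then 1 else 0)‖ ≤ ‖c i‖ * ‖c j‖ * θ := by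
          gcongr
          exact hy i j
      _ = _ := by ring
  have h6 : (∑ i, ‖c i‖) ^ 2 ≤ Fintype.card J * ∑ i, ‖c i‖ ^ 2 := by
    have := sq_sum_le_card_mul_sum_sq (s := (Finset.univ : Finset J)) (f := fun i => ‖c i‖)
    simpa using this
  have h7 : 0 ≤ ∑ i, ‖c i‖ ^ 2 := Finset.sum_nonneg (fun i _ => by positivity)
  calc _ ≤ ∑ i, ‖c i‖ ^ 2 + θ * (∑ i, ‖c i‖) ^ 2 := (norm_add_le _ _).trans (add_le_add h4 h5)
    _ ≤ ∑ i, ‖c i‖ ^ 2 + θ * (Fintype.card J * ∑ i, ‖c i‖ ^ 2) := by gcongr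
    _ = (1 + θ * Fintype.card J) * ∑ i, ‖c i‖ ^ 2 := by ring
    _ ≤ 4 * ∑ i, ‖c i‖ ^ 2 := by gcongr; linarith

include 𝔑 hmax in
/-- Glimm's lemma -/
theorem glimm (C : List (H →L[ℂ] H)) (N : List H) {η : ℝ} (hη : 0 < η) :
    ∃ (f : H) (g : (H →L[ℂ] H) →L[ℂ] H), Good L C η f g ∧ ∀ v ∈ N, ⟪v, f⟫_ℂ = 0 := by
  obtain ⟨J, _, _, e, he, hC⟩ := 𝔑.exists_family C
  set θ : ℝ := 3 / ((Fintype.card J : ℝ) + 1) with hθ
  have hθ0 : 0 < θ := by positivity
  have hθ1 : θ * Fintype.card J ≤ 3 := by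
    rw [hθ, div_mul_eq_mul_div, div_le_iff₀ (by positivity)]
    nlinarith
  have h1 : ∀ᶠ i in (𝔑.U : Filter 𝔑.ι), ∀ j k, ‖⟪e j (𝔑.x i), e k (𝔑.x i)⟫_ℂ -
      (if j = k then 1 else 0)‖ ≤ θ := by
    rw [eventually_all]
    intro j
    rw [eventually_all]
    intro k
    have h := 𝔑.tendsto_κ (e j) (e k)
    rw [he, Metric.tendsto_nhds] at h
    filter_upwards [h θ hθ0] with i hi
    rw [dist_eq_norm] at hi
    exact hi.le
  have h2 : ∀ᶠ i in (𝔑.U : Filter 𝔑.ι), ∀ c ∈ C,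
      ‖(c - ∑ j, 𝔑.κ (e j) c • e j) (𝔑.x i)‖ ≤ η := by
    have : ∀ c ∈ {c | c ∈ C}, ∀ᶠ i in (𝔑.U : Filter 𝔑.ι),
        ‖(c - ∑ j, 𝔑.κ (e j) c • e j) (𝔑.x i)‖ ≤ η := by
      intro c hc
      have h := 𝔑.lim _ (hC c hc)
      rw [Metric.tendsto_nhds] at h
      filter_upwards [h η hη] with i hi
      rw [dist_zero_right, norm_norm] at hi
      exact hi.le
    exact (eventually_all_finite (List.finite_toSet C)).2 this
  have h3 : ∀ᶠ i in (𝔑.U : Filter 𝔑.ι), ∀ v ∈ N, ⟪v, 𝔑.x i⟫_ℂ = 0 := by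
    have : ∀ v ∈ {v | v ∈ N}, ∀ᶠ i in (𝔑.U : Filter 𝔑.ι), ⟪v, 𝔑.x i⟫_ℂ = 0 :=
      fun v _ => 𝔑.orth v
    exact (eventually_all_finite (List.finite_toSet N)).2 this
  obtain ⟨i, hi1, hi2, hi3⟩ := (h1.and (h2.and h3)).exists
  refine ⟨𝔑.x i, 𝔑.gmap e (𝔑.x i), ⟨𝔑.norm_x i, ?_, ?_, ?_⟩, hi3⟩
  · intro l hl
    rw [gmap_apply]
    refine Finset.sum_eq_zero (fun j _ => ?_)
    rw [𝔑.κ_L hl, zero_smul]
  · intro b
    rw [gmap_apply]
    have h4 := norm_sum_le_of_gram (fun j => e j (𝔑.x i)) hθ0.le hθ1 hi1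
      (fun j => 𝔑.κ (e j) b)
    have h5 := 𝔑.bessel e he b
    have h6 : ‖∑ j, 𝔑.κ (e j) b • e j (𝔑.x i)‖ ^ 2 ≤ (2 * ‖b‖) ^ 2 := by
      refine h4.trans ?_
      nlinarith
    exact le_of_sq_le_sq h6 (by positivity)
  · intro c hc
    rw [gmap_apply, norm_sub_rev]
    have h4 := hi2 c hc
    rw [_root_.sub_apply, _root_.sum_apply] at h4
    exact h4

end Net

end

end Pool.Agent.H80.HD
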