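import Pool.Agent.H80.HD.Proj
import Pool.Agent.H80.HD.Free

/-! # The irreducible module `B(H)/L` and small maps (helper80, for MP_216d05_an) -/

namespace Pool.Agent.H80.HD

open Filter Topology Set InnerProductSpace Pool.Agent.H83

noncomputable section

set_option linter.unusedSectionVars false

universe u

variable {H : Type u} [NormedAddCommGroup H] [InnerProductSpace ℂ H] [CompleteSpace H]


variable (L : Ideal (H →L[ℂ] H))

/-- `L` as a complex subspace -/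
def Lc : Submodule ℂ (H →L[ℂ] H) where
  carrier := L
  add_mem' := L.add_mem
  zero_mem' := L.zero_mem
  smul_mem' := fun c a ha => by
    have h : c • a = (c • (1 : H →L[ℂ] H)) * a := by
      ext x; rfl
    change c • a ∈ L
    rw [h]
    exact L.mul_mem_left _ ha

theorem mem_Lc {a : H →L[ℂ] H} : a ∈ Lc L ↔ a ∈ L := Iff.rfl

variable [hmax : L.IsMaximal]

instance : IsClosed (Lc L : Set (H →L[ℂ] H)) := Ideal.IsMaximal.isClosed (I := L)

/-- the irreducible module `B(H)/L` -/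
def XL : Dim.LMod (H →L[ℂ] H) where
  carrier := (H →L[ℂ] H) ⧸ Lc L
  act := Dim.quoAct (ContinuousLinearMap.mul ℂ (H →L[ℂ] H)) (Lc L)
    (fun a l hl => L.mul_mem_left a hl)
  act_mul := fun a b x => by
    obtain ⟨x, rfl⟩ := (Lc L).mkQ_surjective x
    exact congrArg (Lc L).mkQ (mul_assoc a b x)

/-- the quotient map -/
def mk : (H →L[ℂ] H) →L[ℂ] (XL L).carrier := (Lc L).mkQL

theorem mk_surj (x : (XL L).carrier) : ∃ b, mk L b = x := (Lc L).mkQ_surjective x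

theorem act_mk (a b : H →L[ℂ] H) : (XL L).act a (mk L b) = mk L (a * b) := rfl

theorem mk_eq_zero {b : H →L[ℂ] H} : mk L b = 0 ↔ b ∈ L :=
  Submodule.Quotient.mk_eq_zero (Lc L)

theorem act_one_XL (x : (XL L).carrier) : (XL L).act 1 x = x := by
  obtain ⟨b, rfl⟩ := mk_surj L x
  rw [act_mk, one_mul]

theorem exists_norm_lt (x : (XL L).carrier) {ε : ℝ} (hε : 0 < ε) :
    ∃ b, mk L b = x ∧ ‖b‖ < ‖x‖ + ε := Submodule.Quotient.norm_mk_lt x hε

/-- `H` as a module -/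
def Hm : Dim.LMod (H →L[ℂ] H) where
  carrier := H
  act := ContinuousLinearMap.id ℂ (H →L[ℂ] H)
  act_mul := fun _ _ _ => rfl

/-- the multiplication `B(H) ⊗ H → H` -/
def mH : PT (H →L[ℂ] H) H →L[ℂ] H := mu (Hm (H := H))

@[simp] theorem mH_tm (b : H →L[ℂ] H) (x : H) : mH (tm b x) = b x := mu_tm (Hm (H := H)) b x

theorem norm_mH_le (w : PT (H →L[ℂ] H) H) : ‖mH w‖ ≤ ‖w‖ := by
  have h := norm_lift_le (G := H) (Hm (H := H)).act (C := 1) zero_le_one (fun b x => by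
    rw [one_mul]
    exact ContinuousLinearMap.le_opNorm (show H →L[ℂ] H from b) x) w
  rw [one_mul] at h
  exact h

theorem mH_am (a : H →L[ℂ] H) (w : PT (H →L[ℂ] H) H) : mH (am a w) = a (mH w) :=
  mu_am (Hm (H := H)) a w

open Classical in
/-- the map induced by `g` on the quotient -/
def gX (g : (H →L[ℂ] H) →L[ℂ] H) : (XL L).carrier →L[ℂ] H :=
  if h : ∀ l ∈ L, g l = 0 then (Lc L).liftQL g (fun l hl => h l hl) else 0

variable {L} in
theorem gX_mk {g : (H →L[ℂ] H) →L[ℂ] H} (h : ∀ l ∈ L, g l = 0) (b : H →L[ℂ] H) :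
    gX L g (mk L b) = g b := by
  rw [gX, dif_pos h]
  rfl

/-- the map `b ⊗ x ↦ b g(x)` -/
def Gg (g : (H →L[ℂ] H) →L[ℂ] H) : PT (H →L[ℂ] H) (XL L).carrier →L[ℂ] H :=
  mH.comp (idt (gX L g))

theorem Gg_tm (g : (H →L[ℂ] H) →L[ℂ] H) (b : H →L[ℂ] H) (x : (XL L).carrier) :
    Gg L g (tm b x) = b (gX L g x) := by
  rw [Gg, ContinuousLinearMap.comp_apply, idt_tm, mH_tm]

theorem Gg_am (g : (H →L[ℂ] H) →L[ℂ] H) (a : H →L[ℂ] H)
    (w : PT (H →L[ℂ] H) (XL L).carrier) : Gg L g (am a w) = a (Gg L g w) := by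
  rw [Gg, ContinuousLinearMap.comp_apply, idt_am, mH_am]
  rfl

/-- the restriction to the kernel -/
def ΓZ (g : (H →L[ℂ] H) →L[ℂ] H) : (Zm (XL L)).carrier →L[ℂ] H := (Gg L g).comp (zi (XL L))

theorem ΓZ_act (g : (H →L[ℂ] H) →L[ℂ] H) (a : H →L[ℂ] H) (z : (Zm (XL L)).carrier) :
    ΓZ L g ((Zm (XL L)).act a z) = a (ΓZ L g z) := by
  rw [ΓZ, ContinuousLinearMap.comp_apply, zi_act, Gg_am]
  rfl

theorem mH_idt_ΓZ (g : (H →L[ℂ] H) →L[ℂ] H)
    (w : PT (H →L[ℂ] H) (Zm (XL L)).carrier) :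
    mH (idt (ΓZ L g) w) = ΓZ L g (mu (Zm (XL L)) w) := by
  have h : mH.comp (idt (ΓZ L g)) = (ΓZ L g).comp (mu (Zm (XL L))) := by
    apply PT_ext
    intro b z
    rw [ContinuousLinearMap.comp_apply, ContinuousLinearMap.comp_apply, idt_tm, mH_tm, mu_tm,
      ΓZ_act]
  exact congrArg (fun f => f w) h

variable {L}

section good

variable {C : List (H →L[ℂ] H)} {η : ℝ} {f : H} {g : (H →L[ℂ] H) →L[ℂ] H}

theorem norm_gX_le (hg : Net.Good L C η f g) (x : (XL L).carrier) : ‖gX L g x‖ ≤ 2 * ‖x‖ := by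
  refine le_of_forall_pos_le_add (fun ε hε => ?_)
  obtain ⟨b, rfl, hb⟩ := exists_norm_lt L x (half_pos hε)
  rw [gX_mk hg.ker]
  refine (hg.norm_g b).trans ?_
  linarith

theorem norm_idt_gX_le (hg : Net.Good L C η f g) (w : PT (H →L[ℂ] H) (XL L).carrier) :
    ‖Gg L g w‖ ≤ 2 * ‖w‖ := by
  rw [Gg, ContinuousLinearMap.comp_apply]
  refine (norm_mH_le _).trans ((norm_idt_le _ _).trans ?_)
  gcongr
  exact ContinuousLinearMap.opNorm_le_bound _ (by norm_num) (norm_gX_le hg)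

theorem norm_ΓZ_le (hg : Net.Good L C η f g) (z : (Zm (XL L)).carrier) :
    ‖ΓZ L g z‖ ≤ 2 * ‖z‖ := norm_idt_gX_le hg _

theorem norm_idt_ΓZ_le (hg : Net.Good L C η f g)
    (w : PT (H →L[ℂ] H) (Zm (XL L)).carrier) : ‖idt (ΓZ L g) w‖ ≤ 2 * ‖w‖ := by
  refine (norm_idt_le _ _).trans ?_
  gcongr
  exact ContinuousLinearMap.opNorm_le_bound _ (by norm_num) (norm_ΓZ_le hg)

end good

variable (L) in
/-- the filter of good pairs -/
def GF : Filter (H × ((H →L[ℂ] H) →L[ℂ] H)) where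
  sets := {S | ∃ (C : List (H →L[ℂ] H)) (N : List H) (η : ℝ), 0 < η ∧
    ∀ f g, Net.Good L C η f g → (∀ v ∈ N, ⟪v, f⟫_ℂ = 0) → (f, g) ∈ S}
  univ_sets := ⟨[], [], 1, one_pos, fun _ _ _ _ => trivial⟩
  sets_of_superset := by
    rintro S T ⟨C, N, η, hη, h⟩ hST
    exact ⟨C, N, η, hη, fun f g hg hf => hST (h f g hg hf)⟩
  inter_sets := by
    rintro S T ⟨C, N, η, hη, h⟩ ⟨C', N', η', hη', h'⟩
    refine ⟨C ++ C', N ++ N', min η η', lt_min hη hη', fun f g hg hf => ⟨?_, ?_⟩⟩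
    · exact h f g (hg.mono (fun c hc => List.mem_append_left _ hc) (min_le_left _ _))
        (fun v hv => hf v (List.mem_append_left _ hv))
    · exact h' f g (hg.mono (fun c hc => List.mem_append_right _ hc) (min_le_right _ _))
        (fun v hv => hf v (List.mem_append_right _ hv))

theorem GF_neBot (𝔑 : Net L) : (GF L).NeBot := by
  constructor
  intro h
  have h1 : (∅ : Set (H × ((H →L[ℂ] H) →L[ℂ] H))) ∈ GF L := by rw [h]; exact mem_bot
  obtain ⟨C, N, η, hη, h2⟩ := h1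
  obtain ⟨f, g, hg, hf⟩ := 𝔑.glimm C N hη
  exact h2 f g hg hf

theorem ev_good (C : List (H →L[ℂ] H)) {η : ℝ} (hη : 0 < η) :
    ∀ᶠ p in GF L, Net.Good L C η p.1 p.2 := ⟨C, [], η, hη, fun _ _ hg _ => hg⟩

theorem ev_orth (v : H) : ∀ᶠ p in GF L, ⟪v, p.1⟫_ℂ = 0 :=
  ⟨[], [v], 1, one_pos, fun _ _ _ hf => hf v (List.mem_singleton_self v)⟩

theorem tendsto_Z (z : (Zm (XL L)).carrier) :
    Tendsto (fun p : H × ((H →L[ℂ] H) →L[ℂ] H) => ‖ΓZ L p.2 z‖) (GF L) (𝓝 0) := by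
  rw [Metric.tendsto_nhds]
  intro ε' hε'
  set ε := ε' / 2 with hε
  have hε0 : 0 < ε := half_pos hε'
  set M := ‖mu (XL L)‖ with hM
  have hM0 : 0 ≤ M := ContinuousLinearMap.opNorm_nonneg _
  set δ : ℝ := ε / (4 * (M + 1)) with hδ
  have hδ0 : 0 < δ := by positivity
  obtain ⟨n, b, x, hw⟩ := exists_approx (zi (XL L) z) hδ0
  choose c hc using fun k => mk_surj L (x k)
  set w : PT (H →L[ℂ] H) (XL L).carrier := ∑ k, tm (b k) (x k) with hwdef
  set c0 : H →L[ℂ] H := ∑ k, b k * c k with hc0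
  set K : ℝ := ∑ k, ‖b k‖ with hK
  have hK0 : 0 ≤ K := Finset.sum_nonneg (fun k _ => norm_nonneg _)
  set η : ℝ := ε / (2 * (K + 1)) with hη
  have hη0 : 0 < η := by positivity
  filter_upwards [ev_good (L := L) (c0 :: List.ofFn c) hη0] with p hg
  rw [dist_zero_right, norm_norm]
  have h1 : ΓZ L p.2 z = Gg L p.2 (zi (XL L) z - w) + Gg L p.2 w := by
    rw [← map_add, sub_add_cancel]; rfl
  have h2 : Gg L p.2 w = ∑ k, b k (p.2 (c k)) := by
    rw [hwdef, map_sum]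
    refine Finset.sum_congr rfl (fun k _ => ?_)
    rw [Gg_tm, ← hc k, gX_mk hg.ker]
  have h3 : ‖∑ k, b k (p.2 (c k)) - c0 p.1‖ ≤ K * η := by
    rw [hc0, _root_.sum_apply, ← Finset.sum_sub_distrib, hK, Finset.sum_mul]
    refine (norm_sum_le _ _).trans (Finset.sum_le_sum (fun k _ => ?_))
    have h4 : b k (p.2 (c k)) - (b k * c k) p.1 = b k (p.2 (c k) - c k p.1) := by
      rw [map_sub]; rfl
    rw [h4]
    refine ((b k).le_opNorm _).trans ?_
    gcongr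
    exact hg.approx (c k) (List.mem_cons_of_mem _ (by rw [List.mem_ofFn]; exact ⟨k, rfl⟩))
  have h4 : ‖p.2 c0 - c0 p.1‖ ≤ η := hg.approx c0 List.mem_cons_self
  have h5 : ‖p.2 c0‖ ≤ 2 * (M * δ) := by
    rw [← gX_mk hg.ker]
    refine (norm_gX_le hg _).trans ?_
    gcongr
    have h6 : mk L c0 = mu (XL L) (w - zi (XL L) z) := by
      rw [map_sub, mu_zi, sub_zero, hwdef, map_sum, map_sum]
      refine Finset.sum_congr rfl (fun k _ => ?_)
      rw [mu_tm, ← hc k, act_mk]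
    rw [h6]
    refine ((mu (XL L)).le_opNorm _).trans ?_
    gcongr
    rw [norm_sub_rev]
    exact hw.le
  have h6 : ‖Gg L p.2 (zi (XL L) z - w)‖ ≤ 2 * δ := by
    refine (norm_idt_gX_le hg _).trans ?_
    gcongr
  have h7 : ‖ΓZ L p.2 z‖ ≤ 2 * δ + (K * η + η + 2 * (M * δ)) := by
    rw [h1, h2]
    have h8 : ∑ k, b k (p.2 (c k)) = (∑ k, b k (p.2 (c k)) - c0 p.1) + (c0 p.1 - p.2 c0) +
        p.2 c0 := by abel
    refine (norm_add_le _ _).trans (add_le_add h6 ?_)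
    rw [h8]
    refine (norm_add_le _ _).trans (add_le_add ((norm_add_le _ _).trans (add_le_add h3 ?_)) h5)
    rw [norm_sub_rev]
    exact h4
  have h8 : (K + 1) * η = ε / 2 := by
    rw [hη]; field_simp
  have h9 : 2 * (M + 1) * δ = ε / 2 := by
    rw [hδ]; field_simp; norm_num
  refine h7.trans_lt ?_
  have h10 : 2 * δ + (K * η + η + 2 * (M * δ)) = ε := by linarith
  rw [h10, hε]
  linarith

theorem tendsto_BZ (w : PT (H →L[ℂ] H) (Zm (XL L)).carrier) :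
    Tendsto (fun p : H × ((H →L[ℂ] H) →L[ℂ] H) => ‖idt (ΓZ L p.2) w‖) (GF L) (𝓝 0) := by
  rw [Metric.tendsto_nhds]
  intro ε hε
  obtain ⟨n, b, z, hw⟩ := exists_approx w (show 0 < ε / 4 by positivity)
  have h1 : Tendsto (fun p : H × ((H →L[ℂ] H) →L[ℂ] H) => ∑ k, ‖b k‖ * ‖ΓZ L p.2 (z k)‖)
      (GF L) (𝓝 0) := by
    have := tendsto_finsetSum (Finset.univ : Finset (Fin n))
      (fun k _ => (tendsto_Z (L := L) (z k)).const_mul ‖b k‖)
    simpa using this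
  rw [Metric.tendsto_nhds] at h1
  filter_upwards [h1 (ε / 2) (by positivity), ev_good (L := L) [] one_pos] with p hp hg
  rw [dist_zero_right, norm_norm]
  rw [dist_zero_right, Real.norm_of_nonneg
    (Finset.sum_nonneg (fun k _ => mul_nonneg (norm_nonneg _) (norm_nonneg _)))] at hp
  have h2 : idt (ΓZ L p.2) w = idt (ΓZ L p.2) (w - ∑ k, tm (b k) (z k)) +
      ∑ k, tm (b k) (ΓZ L p.2 (z k)) := by
    rw [map_sub, map_sum]
    have : ∀ k, idt (ΓZ L p.2) (tm (b k) (z k)) = tm (b k) (ΓZ L p.2 (z k)) :=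
      fun k => idt_tm _ _ _
    simp only [this]
    abel
  rw [h2]
  have h3 : ‖idt (ΓZ L p.2) (w - ∑ k, tm (b k) (z k))‖ ≤ 2 * (ε / 4) := by
    refine (norm_idt_ΓZ_le hg _).trans ?_
    gcongr
  have h4 : ‖∑ k, tm (b k) (ΓZ L p.2 (z k))‖ ≤ ∑ k, ‖b k‖ * ‖ΓZ L p.2 (z k)‖ :=
    (norm_sum_le _ _).trans (Finset.sum_le_sum (fun k _ => norm_tm_le _ _))
  have h5 := norm_add_le (idt (ΓZ L p.2) (w - ∑ k, tm (b k) (z k)))
    (∑ k, tm (b k) (ΓZ L p.2 (z k)))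
  linarith

end

end Pool.Agent.H80.HD
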