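import Mathlib

/-! # Singular maximal left ideals of `B(H)` (helper80, for MP_216d05_an) -/

namespace Pool.Agent.H80.HD

open Filter Topology Set InnerProductSpace

noncomputable section

set_option linter.unusedSectionVars false

universe u

variable {H : Type u} [NormedAddCommGroup H] [InnerProductSpace ℂ H] [CompleteSpace H]


variable (H) in
/-- the ideal of operators of finite rank -/
def finRank : Ideal (H →L[ℂ] H) where
  carrier := {a | FiniteDimensional ℂ (LinearMap.range a.toLinearMap)}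
  add_mem' := by
    intro a b ha hb
    have ha' : FiniteDimensional ℂ (LinearMap.range a.toLinearMap) := ha
    have hb' : FiniteDimensional ℂ (LinearMap.range b.toLinearMap) := hb
    have h : LinearMap.range (a + b).toLinearMap ≤
        LinearMap.range a.toLinearMap ⊔ LinearMap.range b.toLinearMap := by
      rintro _ ⟨x, rfl⟩
      exact Submodule.add_mem_sup ⟨x, rfl⟩ ⟨x, rfl⟩
    exact Submodule.finiteDimensional_of_le h
  zero_mem' := by
    change FiniteDimensional ℂ (LinearMap.range (0 : H →L[ℂ] H).toLinearMap)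
    have h : LinearMap.range (0 : H →L[ℂ] H).toLinearMap = ⊥ := LinearMap.range_zero
    rw [h]
    infer_instance
  smul_mem' := by
    intro c a ha
    have ha' : FiniteDimensional ℂ (LinearMap.range a.toLinearMap) := ha
    change FiniteDimensional ℂ (LinearMap.range (c * a).toLinearMap)
    have h : LinearMap.range (c * a).toLinearMap =
        (LinearMap.range a.toLinearMap).map c.toLinearMap := by
      ext y
      constructor
      · rintro ⟨x, rfl⟩
        exact ⟨a x, ⟨x, rfl⟩, rfl⟩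
      · rintro ⟨_, ⟨x, rfl⟩, rfl⟩
        exact ⟨x, rfl⟩
    rw [h]
    infer_instance

theorem mem_finRank {a : H →L[ℂ] H} :
    a ∈ finRank H ↔ FiniteDimensional ℂ (LinearMap.range a.toLinearMap) := Iff.rfl

theorem finRank_of_le {a : H →L[ℂ] H} (W : Submodule ℂ H) [FiniteDimensional ℂ W]
    (h : ∀ x, a x ∈ W) : a ∈ finRank H := by
  rw [mem_finRank]
  have h1 : LinearMap.range a.toLinearMap ≤ W := by
    rintro _ ⟨x, rfl⟩
    exact h x
  exact Submodule.finiteDimensional_of_le h1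

theorem finRank_ne_top (hH : ¬ FiniteDimensional ℂ H) : finRank H ≠ ⊤ := by
  rw [Ne, Ideal.eq_top_iff_one, mem_finRank]
  intro h
  apply hH
  have h1 : LinearMap.range (1 : H →L[ℂ] H).toLinearMap = ⊤ := LinearMap.range_id
  rw [h1] at h
  exact Module.Finite.equiv (Submodule.topEquiv (R := ℂ) (M := H))

theorem exists_maximal_ideal (hH : ¬ FiniteDimensional ℂ H) :
    ∃ L : Ideal (H →L[ℂ] H), L.IsMaximal ∧ finRank H ≤ L :=
  Ideal.exists_le_maximal _ (finRank_ne_top hH)

open Classical in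
/-- almost null unit vectors -/
theorem exists_vec {L : Ideal (H →L[ℂ] H)} (hL : L ≠ ⊤) (hF : finRank H ≤ L)
    (C : Finset (H →L[ℂ] H)) (N : Finset H) {δ : ℝ} (hδ : 0 < δ) :
    ∃ x : H, ‖x‖ = 1 ∧ (∀ v ∈ N, ⟪v, x⟫_ℂ = 0) ∧ ∀ l ∈ C, l ∈ L → ‖l x‖ ≤ δ := by
  by_contra hcon
  push Not at hcon
  set W : Submodule ℂ H := Submodule.span ℂ (N : Set H) with hW
  have hWf : FiniteDimensional ℂ W := FiniteDimensional.span_of_finite ℂ N.finite_toSet
  set P : H →L[ℂ] H := W.starProjection with hP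
  set Q : H →L[ℂ] H := 1 - P with hQ
  have hPL : P ∈ L := hF (finRank_of_le W (fun x => Submodule.starProjection_apply_mem W x))
  set C' := C.filter (fun l => l ∈ L) with hC'
  set S : H →L[ℂ] H := P + ∑ l ∈ C', ContinuousLinearMap.adjoint (l * Q) * (l * Q) with hS
  have hlQ : ∀ l ∈ L, l * Q ∈ L := by
    intro l hl
    rw [hQ, mul_sub, mul_one]
    exact L.sub_mem hl (L.mul_mem_left l hPL)
  have hSL : S ∈ L := by
    refine L.add_mem hPL (L.sum_mem (fun l hl => L.mul_mem_left _ (hlQ l ?_)))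
    exact (Finset.mem_filter.1 hl).2
  have hSx : ∀ x, ⟪S x, x⟫_ℂ = ((‖P x‖ ^ 2 + ∑ l ∈ C', ‖l (Q x)‖ ^ 2 : ℝ) : ℂ) := by
    intro x
    rw [hS, _root_.add_apply, inner_add_left, _root_.sum_apply, sum_inner]
    push_cast
    congr 1
    · have h1 : P x = P (P x) := by
        rw [hP]
        exact ((Submodule.starProjection_eq_self_iff).2
          (Submodule.starProjection_apply_mem W x)).symm
      calc ⟪P x, x⟫_ℂ = ⟪P (P x), x⟫_ℂ := by rw [← h1]
        _ = ⟪P x, P x⟫_ℂ := Submodule.inner_starProjection_left_eq_right W _ _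
        _ = _ := by rw [inner_self_eq_norm_sq_to_K]; rfl
    · refine Finset.sum_congr rfl (fun l _ => ?_)
      change ⟪ContinuousLinearMap.adjoint (l * Q) ((l * Q) x), x⟫_ℂ = _
      rw [ContinuousLinearMap.adjoint_inner_left, inner_self_eq_norm_sq_to_K]
      rfl
  have hQorth : ∀ x, ∀ v ∈ N, ⟪v, Q x⟫_ℂ = 0 := by
    intro x v hv
    have h1 : v ∈ W := Submodule.subset_span hv
    have h2 := Submodule.starProjection_inner_eq_zero (K := W) x v h1
    rw [← inner_conj_symm]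
    have h3 : Q x = x - P x := rfl
    rw [h3, h2, map_zero]
  have hnorm : ∀ x, ‖x‖ ^ 2 = ‖P x‖ ^ 2 + ‖Q x‖ ^ 2 := by
    intro x
    have h1 : x = P x + Q x := by rw [hQ, _root_.sub_apply]; simp
    have h2 : ⟪P x, Q x⟫_ℂ = 0 := by
      rw [← inner_conj_symm]
      have h3 := Submodule.starProjection_inner_eq_zero (K := W) x (P x)
        (Submodule.starProjection_apply_mem W x)
      have h4 : Q x = x - P x := rfl
      rw [h4, h3, map_zero]
    have h3 := norm_add_sq (𝕜 := ℂ) (P x) (Q x)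
    rw [h2, ← h1] at h3
    simpa using h3
  have hco : ∀ x, min 1 (δ ^ 2) * ‖x‖ ^ 2 ≤ ‖P x‖ ^ 2 + ∑ l ∈ C', ‖l (Q x)‖ ^ 2 := by
    intro x
    have h1 : δ ^ 2 * ‖Q x‖ ^ 2 ≤ ∑ l ∈ C', ‖l (Q x)‖ ^ 2 := by
      by_cases hz : Q x = 0
      · rw [hz, norm_zero]
        refine le_trans (le_of_eq (by ring)) (Finset.sum_nonneg (fun l _ => by positivity))
      · have hz' : 0 < ‖Q x‖ := norm_pos_iff.2 hz
        set y : H := ((‖Q x‖⁻¹ : ℝ) : ℂ) • Q x with hy
        have hy1 : ‖y‖ = 1 := by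
          rw [hy, norm_smul, Complex.norm_real, norm_inv, norm_norm, inv_mul_cancel₀ hz'.ne']
        obtain ⟨l, hlC, hlL, hl⟩ := hcon y hy1 (fun v hv => by
          rw [hy, inner_smul_right, hQorth x v hv, mul_zero])
        have h2 : ‖l y‖ = ‖Q x‖⁻¹ * ‖l (Q x)‖ := by
          rw [hy, map_smul, norm_smul, Complex.norm_real, norm_inv, norm_norm]
        have h3 : δ * ‖Q x‖ ≤ ‖l (Q x)‖ := by
          rw [h2] at hl
          have h4 := mul_le_mul_of_nonneg_right hl.le hz'.le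
          rwa [mul_comm (‖Q x‖⁻¹), mul_assoc, inv_mul_cancel₀ hz'.ne', mul_one] at h4
        have h5 : ‖l (Q x)‖ ^ 2 ≤ ∑ l ∈ C', ‖l (Q x)‖ ^ 2 :=
          Finset.single_le_sum (f := fun l : H →L[ℂ] H => ‖l (Q x)‖ ^ 2)
            (fun l _ => by positivity) (Finset.mem_filter.2 ⟨hlC, hlL⟩)
        calc δ ^ 2 * ‖Q x‖ ^ 2 = (δ * ‖Q x‖) ^ 2 := by ring
          _ ≤ ‖l (Q x)‖ ^ 2 := by gcongr
          _ ≤ _ := h5
    rw [hnorm x, mul_add]
    have h6 : min 1 (δ ^ 2) * ‖P x‖ ^ 2 ≤ ‖P x‖ ^ 2 :=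
      mul_le_of_le_one_left (by positivity) (min_le_left _ _)
    have h7 : min 1 (δ ^ 2) * ‖Q x‖ ^ 2 ≤ δ ^ 2 * ‖Q x‖ ^ 2 :=
      mul_le_mul_of_nonneg_right (min_le_right _ _) (by positivity)
    linarith
  have hmin : 0 < min 1 (δ ^ 2) := lt_min one_pos (by positivity)
  have hunit : IsUnit S := by
    refine ContinuousLinearMap.isUnit_of_forall_le_norm_inner_map S (c := ⟨min 1 (δ ^ 2), hmin.le⟩)
      hmin (fun x => ?_)
    rw [hSx x, Complex.norm_real, Real.norm_of_nonneg (by positivity)]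
    have := hco x
    rw [mul_comm]
    exact this
  exact hL (Ideal.eq_top_of_isUnit_mem L hSL hunit)

/-- A net of unit vectors converging weakly to zero and annihilated by `L` in the limit. -/
structure Net (L : Ideal (H →L[ℂ] H)) where
  ι : Type u
  U : Ultrafilter ι
  x : ι → H
  norm_x : ∀ i, ‖x i‖ = 1
  lim : ∀ l ∈ L, Tendsto (fun i => ‖l (x i)‖) U (𝓝 0)
  orth : ∀ v : H, ∀ᶠ i in (U : Filter ι), ⟪v, x i⟫_ℂ = 0

open Classical in
theorem exists_net {L : Ideal (H →L[ℂ] H)} (hL : L ≠ ⊤) (hF : finRank H ≤ L) :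
    Nonempty (Net L) := by
  have h := fun i : Finset (H →L[ℂ] H) × Finset H × ℕ =>
    exists_vec hL hF i.1 i.2.1 (δ := 1 / ((i.2.2 : ℝ) + 1)) (by positivity)
  choose x hx1 hx2 hx3 using h
  refine ⟨⟨Finset (H →L[ℂ] H) × Finset H × ℕ, Ultrafilter.of atTop, x, hx1, ?_, ?_⟩⟩
  · intro l hl
    refine Tendsto.mono_left ?_ (Ultrafilter.of_le atTop)
    rw [Metric.tendsto_atTop]
    intro ε hε
    obtain ⟨n, hn⟩ := exists_nat_one_div_lt hε
    refine ⟨({l}, ∅, n), fun i hi => ?_⟩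
    rw [dist_zero_right, norm_norm]
    have h1 : l ∈ i.1 := hi.1 (Finset.mem_singleton_self l)
    refine (hx3 i l h1 hl).trans_lt (lt_of_le_of_lt ?_ hn)
    have h2 : n ≤ i.2.2 := hi.2.2
    have h3 : (n : ℝ) ≤ i.2.2 := by exact_mod_cast h2
    exact one_div_le_one_div_of_le (by positivity) (by linarith)
  · intro v
    have h1 : ∀ᶠ i : Finset (H →L[ℂ] H) × Finset H × ℕ in atTop, ⟪v, x i⟫_ℂ = 0 := by
      rw [eventually_atTop]
      exact ⟨(∅, {v}, 0), fun i hi => hx2 i v (hi.2.1 (Finset.mem_singleton_self v))⟩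
    exact (Ultrafilter.of_le atTop) h1

end

end Pool.Agent.H80.HD
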