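import Mathlib

/-! # Projective tensor products of two Banach spaces (helper80, for MP_216d05_an)

`PT E F` is the closed linear span of the evaluations `φ ↦ φ x y` in the dual of the space of
bounded bilinear forms on `E × F`. -/

namespace Pool.Agent.H80.HD

open Filter Topology Set

noncomputable section

set_option linter.unusedSectionVars false

universe u

variable (E F : Type u) [NormedAddCommGroup E] [NormedSpace ℂ E] [NormedAddCommGroup F]
  [NormedSpace ℂ F]

/-- bounded bilinear forms -/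
def BF : Type u := E →L[ℂ] F →L[ℂ] ℂ

instance : NormedAddCommGroup (BF E F) := inferInstanceAs (NormedAddCommGroup (E →L[ℂ] F →L[ℂ] ℂ))
instance : NormedSpace ℂ (BF E F) := inferInstanceAs (NormedSpace ℂ (E →L[ℂ] F →L[ℂ] ℂ))

variable {E F} in
/-- view as a map -/
def BF.ap (φ : BF E F) : E →L[ℂ] F →L[ℂ] ℂ := φ

/-- evaluations of bilinear forms -/
def ev : E →L[ℂ] F →L[ℂ] (BF E F →L[ℂ] ℂ) :=
  LinearMap.mkContinuous₂
    (LinearMap.mk₂ ℂ (fun (x : E) (y : F) =>
        (LinearMap.mkContinuous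
          { toFun := fun φ : BF E F => φ.ap x y
            map_add' := fun _ _ => rfl
            map_smul' := fun _ _ => rfl } (‖x‖ * ‖y‖) (fun φ => by
              refine (φ.ap.le_opNorm₂ x y).trans (le_of_eq ?_)
              change ‖φ‖ * ‖x‖ * ‖y‖ = _
              ring) : BF E F →L[ℂ] ℂ))
      (fun x x' y => by ext φ; exact congrArg (fun g => g y) (map_add φ.ap x x'))
      (fun c x y => by ext φ; exact congrArg (fun g => g y) (map_smul φ.ap c x))
      (fun x y y' => by ext φ; exact map_add (φ.ap x) y y')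
      (fun c x y => by ext φ; exact map_smul (φ.ap x) c y)) 1
    (fun x y => by
      rw [LinearMap.mk₂_apply, one_mul]
      exact LinearMap.mkContinuous_norm_le _ (by positivity) _)

variable {E F}

theorem ev_apply (x : E) (y : F) (φ : BF E F) : ev E F x y φ = φ.ap x y := rfl

theorem norm_ev_le (x : E) (y : F) : ‖ev E F x y‖ ≤ ‖x‖ * ‖y‖ := by
  refine ContinuousLinearMap.opNorm_le_bound _ (by positivity) (fun φ => ?_)
  rw [ev_apply]
  refine (φ.ap.le_opNorm₂ x y).trans (le_of_eq ?_)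
  change ‖φ‖ * ‖x‖ * ‖y‖ = _
  ring

variable (E F)

/-- the underlying subspace of the projective tensor product -/
def PTs : Submodule ℂ (BF E F →L[ℂ] ℂ) :=
  (Submodule.span ℂ {w | ∃ x y, ev E F x y = w}).topologicalClosure

/-- the projective tensor product -/
def PT : Type u := ↥(PTs E F)

instance : NormedAddCommGroup (PT E F) := inferInstanceAs (NormedAddCommGroup ↥(PTs E F))
instance : NormedSpace ℂ (PT E F) := inferInstanceAs (NormedSpace ℂ ↥(PTs E F))
instance : CompleteSpace (PT E F) :=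
  (Submodule.isClosed_topologicalClosure _).completeSpace_coe

variable {E F}

theorem ev_mem (x : E) (y : F) : ev E F x y ∈ PTs E F :=
  Submodule.le_topologicalClosure _ (Submodule.subset_span ⟨x, y, rfl⟩)

/-- the inclusion -/
def incl : PT E F →L[ℂ] (BF E F →L[ℂ] ℂ) := (PTs E F).subtypeL

theorem norm_incl (w : PT E F) : ‖incl w‖ = ‖w‖ := rfl

theorem incl_inj {w w' : PT E F} (h : incl w = incl w') : w = w' := Subtype.ext h

/-- elementary tensors -/
def tm : E →L[ℂ] F →L[ℂ] PT E F :=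
  LinearMap.mkContinuous₂
    (LinearMap.mk₂ ℂ (fun (x : E) (y : F) => ((⟨ev E F x y, ev_mem x y⟩ : ↥(PTs E F)) : PT E F))
      (fun x x' y => incl_inj (congrArg (fun g => g y) (map_add (ev E F) x x')))
      (fun c x y => incl_inj (congrArg (fun g => g y) (map_smul (ev E F) c x)))
      (fun x y y' => incl_inj (map_add (ev E F x) y y'))
      (fun c x y => incl_inj (map_smul (ev E F x) c y))) 1
    (fun x y => by
      rw [LinearMap.mk₂_apply, one_mul]
      exact norm_ev_le x y)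

theorem incl_tm (x : E) (y : F) : incl (tm x y) = ev E F x y := rfl

theorem norm_tm_le (x : E) (y : F) : ‖tm x y‖ ≤ ‖x‖ * ‖y‖ := norm_ev_le x y

/-- every element is approximated by finite sums of elementary tensors -/
theorem exists_approx (w : PT E F) {δ : ℝ} (hδ : 0 < δ) :
    ∃ (n : ℕ) (x : Fin n → E) (y : Fin n → F), ‖w - ∑ k, tm (x k) (y k)‖ < δ := by
  have h1 : incl w ∈ closure ((Submodule.span ℂ {w | ∃ x y, ev E F x y = w} :
      Submodule ℂ (BF E F →L[ℂ] ℂ)) : Set (BF E F →L[ℂ] ℂ)) := by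
    rw [← Submodule.topologicalClosure_coe]
    exact (show ↥(PTs E F) from w).2
  obtain ⟨v, hv, hd⟩ := Metric.mem_closure_iff.1 h1 δ hδ
  have h2 : ∃ (n : ℕ) (x : Fin n → E) (y : Fin n → F), v = ∑ k, ev E F (x k) (y k) := by
    obtain ⟨n, c, g, hg⟩ := (Submodule.mem_span_set').1 hv
    choose x y hxy using fun k => (g k).2
    refine ⟨n, fun k => c k • x k, y, ?_⟩
    rw [← hg]
    refine Finset.sum_congr rfl (fun k _ => ?_)
    rw [← hxy k, map_smul]
    rfl
  obtain ⟨n, x, y, rfl⟩ := h2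
  refine ⟨n, x, y, ?_⟩
  rw [← norm_incl, map_sub, map_sum]
  rw [dist_eq_norm] at hd
  exact hd

theorem PT_ext {G : Type*} [NormedAddCommGroup G] [NormedSpace ℂ G] {S T : PT E F →L[ℂ] G}
    (h : ∀ x y, S (tm x y) = T (tm x y)) : S = T := by
  ext w
  rw [← sub_eq_zero, ← norm_le_zero_iff]
  refine le_of_forall_pos_le_add (fun δ hδ => ?_)
  rw [zero_add]
  have hC : 0 < ‖S - T‖ + 1 := by positivity
  obtain ⟨n, x, y, hn⟩ := exists_approx w (div_pos hδ hC)
  have h1 : S w - T w = (S - T) (w - ∑ k, tm (x k) (y k)) := by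
    rw [map_sub, map_sum, _root_.sub_apply, Finset.sum_eq_zero, sub_zero]
    intro k _
    rw [_root_.sub_apply, h, sub_self]
  rw [h1]
  refine ((S - T).le_opNorm _).trans ?_
  calc ‖S - T‖ * ‖w - ∑ k, tm (x k) (y k)‖ ≤ (‖S - T‖ + 1) * (δ / (‖S - T‖ + 1)) := by
        gcongr
        linarith
    _ = δ := by field_simp

section lift

variable {G : Type u} [NormedAddCommGroup G] [NormedSpace ℂ G] [CompleteSpace G]
  (φ : E →L[ℂ] F →L[ℂ] G)

/-- composition with a functional -/
def pb (γ : StrongDual ℂ G) : BF E F := ((ContinuousLinearMap.compL ℂ F G ℂ) γ).comp φ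

theorem pb_apply (γ : StrongDual ℂ G) (x : E) (y : F) : (pb φ γ).ap x y = γ (φ x y) := rfl

theorem norm_pb_le (γ : StrongDual ℂ G) : ‖pb φ γ‖ ≤ ‖φ‖ * ‖γ‖ := by
  refine ContinuousLinearMap.opNorm_le_bound (pb φ γ).ap (by positivity) (fun x => ?_)
  refine ContinuousLinearMap.opNorm_le_bound _ (by positivity) (fun y => ?_)
  change ‖γ (φ x y)‖ ≤ _
  refine (γ.le_opNorm _).trans ?_
  calc ‖γ‖ * ‖φ x y‖ ≤ ‖γ‖ * (‖φ‖ * ‖x‖ * ‖y‖) :=
        mul_le_mul_of_nonneg_left (φ.le_opNorm₂ x y) (norm_nonneg _)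
    _ = ‖φ‖ * ‖γ‖ * ‖x‖ * ‖y‖ := by ring

variable (G) in
/-- the bidual -/
def DD : Type u := StrongDual ℂ G →L[ℂ] ℂ

instance : NormedAddCommGroup (DD G) := inferInstanceAs (NormedAddCommGroup (StrongDual ℂ G →L[ℂ] ℂ))
instance : NormedSpace ℂ (DD G) := inferInstanceAs (NormedSpace ℂ (StrongDual ℂ G →L[ℂ] ℂ))

/-- view as a map -/
def DD.ap (z : DD G) : StrongDual ℂ G →L[ℂ] ℂ := z

theorem DD.ext {z z' : DD G} (h : ∀ γ, z.ap γ = z'.ap γ) : z = z' := ContinuousLinearMap.ext h

/-- the map to the bidual -/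
def lift₀ (w : BF E F →L[ℂ] ℂ) : DD G :=
  LinearMap.mkContinuous
    { toFun := fun γ : StrongDual ℂ G => w (pb φ γ)
      map_add' := fun γ γ' => by
        rw [← map_add]
        congr 1
      map_smul' := fun c γ => by
        rw [RingHom.id_apply, ← map_smul]
        congr 1 } (‖φ‖ * ‖w‖) (fun γ => by
          refine (w.le_opNorm _).trans ?_
          rw [mul_comm ‖φ‖, mul_assoc]
          exact mul_le_mul_of_nonneg_left (norm_pb_le φ γ) (norm_nonneg w))

theorem lift₀_apply (w : BF E F →L[ℂ] ℂ) (γ : StrongDual ℂ G) :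
    (lift₀ φ w).ap γ = w (pb φ γ) := rfl

theorem norm_lift₀_le (w : BF E F →L[ℂ] ℂ) : ‖lift₀ φ w‖ ≤ ‖φ‖ * ‖w‖ :=
  LinearMap.mkContinuous_norm_le _ (mul_nonneg (ContinuousLinearMap.opNorm_nonneg φ)
    (ContinuousLinearMap.opNorm_nonneg w)) _

theorem lift₀_add (w w' : BF E F →L[ℂ] ℂ) : lift₀ φ (w + w') = lift₀ φ w + lift₀ φ w' := by
  exact DD.ext (fun γ => rfl)

theorem lift₀_sub (w w' : BF E F →L[ℂ] ℂ) : lift₀ φ (w - w') = lift₀ φ w - lift₀ φ w' := by
  exact DD.ext (fun γ => rfl)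

theorem lift₀_smul (c : ℂ) (w : BF E F →L[ℂ] ℂ) : lift₀ φ (c • w) = c • lift₀ φ w := by
  exact DD.ext (fun γ => rfl)

/-- embedding in the bidual -/
def J : G →ₗᵢ[ℂ] DD G := NormedSpace.inclusionInDoubleDualLi ℂ

theorem J_apply (g : G) (γ : StrongDual ℂ G) : (J g).ap γ = γ g := rfl

theorem lift₀_ev (x : E) (y : F) : lift₀ φ (ev E F x y) = J (φ x y) := by
  exact DD.ext (fun γ => rfl)

theorem lift₀_sum {n : ℕ} (x : Fin n → E) (y : Fin n → F) :
    lift₀ φ (incl (∑ k, tm (x k) (y k))) = J (∑ k, φ (x k) (y k)) := by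
  refine DD.ext (fun γ => ?_)
  rw [lift₀_apply, J_apply, map_sum, map_sum, _root_.sum_apply]
  rfl

theorem lift₀_mem (w : PT E F) : ∃ g : G, J g = lift₀ φ (incl w) := by
  have h1 : IsClosed (Set.range (J (G := G))) :=
    ((J (G := G)).isometry.isUniformInducing.isComplete_range).isClosed
  have h2 : lift₀ φ (incl w) ∈ closure (Set.range (J (G := G))) := by
    refine (Metric.mem_closure_iff (α := DD G)).2 (fun δ hδ => ?_)
    have hC : 0 < ‖φ‖ + 1 := add_pos_of_nonneg_of_pos (ContinuousLinearMap.opNorm_nonneg φ) one_pos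
    obtain ⟨n, x, y, hn⟩ := exists_approx w (div_pos hδ hC)
    refine ⟨J (∑ k, φ (x k) (y k)), ⟨_, rfl⟩, ?_⟩
    rw [← lift₀_sum]
    rw [dist_eq_norm, ← lift₀_sub, ← map_sub]
    refine (norm_lift₀_le φ _).trans_lt ?_
    rw [norm_incl]
    calc ‖φ‖ * ‖w - ∑ k, tm (x k) (y k)‖ ≤ (‖φ‖ + 1) * ‖w - ∑ k, tm (x k) (y k)‖ := by
          gcongr; linarith
      _ < (‖φ‖ + 1) * (δ / (‖φ‖ + 1)) := mul_lt_mul_of_pos_left hn hC
      _ = δ := mul_div_cancel₀ _ hC.ne'
  rw [h1.closure_eq] at h2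
  exact h2

/-- the universal property: underlying function -/
def liftF (w : PT E F) : G := (lift₀_mem φ w).choose

theorem J_liftF (w : PT E F) : J (liftF φ w) = lift₀ φ (incl w) := (lift₀_mem φ w).choose_spec

/-- the universal property of the projective tensor product -/
def lift : PT E F →L[ℂ] G :=
  LinearMap.mkContinuous
    { toFun := liftF φ
      map_add' := fun w w' => by
        apply (J (G := G)).injective
        rw [map_add, J_liftF, J_liftF, J_liftF, map_add, lift₀_add]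
      map_smul' := fun c w => by
        apply (J (G := G)).injective
        rw [RingHom.id_apply, map_smul, J_liftF, J_liftF, map_smul, lift₀_smul] } ‖φ‖
    (fun w => by
      change ‖liftF φ w‖ ≤ _
      rw [← (J (G := G)).norm_map, J_liftF, ← norm_incl w]
      exact norm_lift₀_le φ _)

theorem norm_lift_apply_le (w : PT E F) : ‖lift φ w‖ ≤ ‖φ‖ * ‖w‖ := by
  change ‖liftF φ w‖ ≤ _
  rw [← (J (G := G)).norm_map, J_liftF, ← norm_incl w]
  exact norm_lift₀_le φ _

theorem norm_lift_le {C : ℝ} (hC : 0 ≤ C) (h : ∀ x y, ‖φ x y‖ ≤ C * ‖x‖ * ‖y‖) (w : PT E F) :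
    ‖lift φ w‖ ≤ C * ‖w‖ := by
  refine (norm_lift_apply_le φ w).trans ?_
  gcongr
  exact ContinuousLinearMap.opNorm_le_bound₂ φ hC h

@[simp] theorem lift_tm (x : E) (y : F) : lift φ (tm x y) = φ x y := by
  apply (J (G := G)).injective
  have h : J (lift φ (tm x y)) = lift₀ φ (incl (tm x y)) := J_liftF φ (tm x y)
  rw [h]
  exact lift₀_ev φ x y

end lift

end

end Pool.Agent.H80.HD
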