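import Pool.Agent.H80.HD.Glimm

/-! # Projections onto subsequences of an orthonormal sequence (helper80, for MP_216d05_an) -/

namespace Pool.Agent.H80.HD

open Filter Topology Set InnerProductSpace

noncomputable section

set_option linter.unusedSectionVars false

universe u

section comb

variable (μ : Set ℕ → ℝ)

/-- residue classes -/
def Tc (k a : ℕ) : Set ℕ := {n | n % 2 ^ k = a}

open Classical in
/-- the choice of the residues -/
def ac : ℕ → ℕ
  | 0 => 0
  | k + 1 => if μ (Tc (k + 1) (ac k)) ≤ μ (Tc k (ac k)) / 2 then ac k else ac k + 2 ^ k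

theorem ac_lt (k : ℕ) : ac μ k < 2 ^ k := by
  induction k with
  | zero => simp [ac]
  | succ k ih =>
      rw [ac]
      split_ifs
      · rw [pow_succ]; omega
      · rw [pow_succ]; omega

theorem ac_mod {k j : ℕ} (h : k ≤ j) : ac μ j % 2 ^ k = ac μ k := by
  induction j, h using Nat.le_induction with
  | base => exact Nat.mod_eq_of_lt (ac_lt μ k)
  | succ j hj ih =>
      rw [ac]
      split_ifs
      · exact ih
      · have h1 : 2 ^ k ∣ 2 ^ j := pow_dvd_pow 2 hj
        obtain ⟨c, hc⟩ := h1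
        rw [hc, Nat.add_mul_mod_self_left]
        exact ih

theorem exists_null (h0 : ∀ A, 0 ≤ μ A)
    (h1 : ∀ A B C : Set ℕ, Disjoint B C → B ⊆ A → C ⊆ A → μ B + μ C ≤ μ A)
    (h2 : ∀ A B F : Set ℕ, F.Finite → A ⊆ B ∪ F → μ A ≤ μ B) :
    ∃ A : Set ℕ, A.Infinite ∧ μ A = 0 := by
  have hstep : ∀ k, μ (Tc k (ac μ k)) ≤ μ (Tc 0 0) / 2 ^ k := by
    intro k
    induction k with
    | zero => simp [ac]
    | succ k ih =>
        have h3 : μ (Tc (k + 1) (ac μ (k + 1))) ≤ μ (Tc k (ac μ k)) / 2 := by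
          by_cases hc : μ (Tc (k + 1) (ac μ k)) ≤ μ (Tc k (ac μ k)) / 2
          · rw [ac, if_pos hc]; exact hc
          · rw [ac, if_neg hc]
            have h4 := h1 (Tc k (ac μ k)) (Tc (k + 1) (ac μ k)) (Tc (k + 1) (ac μ k + 2 ^ k))
              (by
                rw [Set.disjoint_left]
                intro n hn hn'
                rw [Tc, Set.mem_ofPred_eq] at hn hn'
                have : 0 < 2 ^ k := by positivity
                omega)
              (by
                intro n hn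
                rw [Tc, Set.mem_ofPred_eq] at hn ⊢
                have h5 : n % 2 ^ (k + 1) % 2 ^ k = n % 2 ^ k :=
                  Nat.mod_mod_of_dvd n (pow_dvd_pow 2 (Nat.le_succ k))
                rw [← h5, hn, Nat.mod_eq_of_lt (ac_lt μ k)])
              (by
                intro n hn
                rw [Tc, Set.mem_ofPred_eq] at hn ⊢
                have h5 : n % 2 ^ (k + 1) % 2 ^ k = n % 2 ^ k :=
                  Nat.mod_mod_of_dvd n (pow_dvd_pow 2 (Nat.le_succ k))
                rw [← h5, hn, Nat.add_mod_right, Nat.mod_eq_of_lt (ac_lt μ k)])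
            linarith
        refine h3.trans ?_
        rw [pow_succ, ← div_div]
        linarith
  set A : Set ℕ := Set.range (fun k => ac μ k + 2 ^ k) with hA
  refine ⟨A, ?_, ?_⟩
  · rw [hA]
    intro hf
    obtain ⟨M, hM⟩ := hf.bddAbove
    have h3 : ac μ (M + 1) + 2 ^ (M + 1) ≤ M := hM ⟨M + 1, rfl⟩
    have h4 : M + 1 < 2 ^ (M + 1) := Nat.lt_two_pow_self
    omega
  · have h3 : ∀ k, μ A ≤ μ (Tc 0 0) / 2 ^ k := by
      intro k
      refine (h2 A (Tc k (ac μ k)) ((fun j => ac μ j + 2 ^ j) '' (Set.Iio k))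
        ((Set.finite_Iio k).image _) ?_).trans (hstep k)
      rintro n ⟨j, rfl⟩
      by_cases hj : j < k
      · exact Or.inr ⟨j, hj, rfl⟩
      · left
        rw [not_lt] at hj
        rw [Tc, Set.mem_ofPred_eq]
        obtain ⟨c, hc⟩ := pow_dvd_pow 2 hj
        change (ac μ j + 2 ^ j) % 2 ^ k = _
        rw [hc, Nat.add_mul_mod_self_left, ac_mod μ hj]
    have h4 : Tendsto (fun k : ℕ => μ (Tc 0 0) / 2 ^ k) atTop (𝓝 0) := by
      have := tendsto_pow_atTop_nhds_zero_of_lt_one (r := (1 / 2 : ℝ)) (by norm_num) (by norm_num)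
      have h5 := this.const_mul (μ (Tc 0 0))
      rw [mul_zero] at h5
      refine h5.congr (fun k => ?_)
      rw [one_div, inv_pow, div_eq_mul_inv]
    exact le_antisymm (ge_of_tendsto' h4 h3) (h0 A)

end comb

variable {H : Type u} [NormedAddCommGroup H] [InnerProductSpace ℂ H] [CompleteSpace H]


variable (f : ℕ → H) (A : Set ℕ)

/-- the closed span of a subsequence -/
def KA : Submodule ℂ H := (Submodule.span ℂ (f '' A)).topologicalClosure

instance : CompleteSpace (KA f A) := by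
  rw [KA]
  exact (Submodule.isClosed_topologicalClosure _).completeSpace_coe

/-- the projection onto the closed span of a subsequence -/
def PA : H →L[ℂ] H := (KA f A).starProjection

variable {f A}

theorem f_mem {n : ℕ} (hn : n ∈ A) : f n ∈ KA f A :=
  Submodule.le_topologicalClosure _ (Submodule.subset_span ⟨n, hn, rfl⟩)

theorem PA_mem (v : H) : PA f A v ∈ KA f A := Submodule.starProjection_apply_mem _ _

theorem inner_PA {n : ℕ} (hn : n ∈ A) (v : H) : ⟪f n, PA f A v⟫_ℂ = ⟪f n, v⟫_ℂ := by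
  have h1 := Submodule.starProjection_inner_eq_zero (K := KA f A) v (f n) (f_mem hn)
  have h2 : ⟪f n, v - PA f A v⟫_ℂ = 0 := by
    rw [← inner_conj_symm]
    have h3 : ⟪v - PA f A v, f n⟫_ℂ = 0 := h1
    rw [h3, map_zero]
  rw [inner_sub_right, sub_eq_zero] at h2
  exact h2.symm

theorem norm_PA_le (v : H) : ‖PA f A v‖ ≤ ‖v‖ := by
  have h := (PA f A).le_opNorm v
  refine h.trans ?_
  exact mul_le_of_le_one_left (norm_nonneg _) (Submodule.starProjection_norm_le (KA f A))

theorem PA_eq_zero {x : H} (h : ∀ n ∈ A, ⟪f n, x⟫_ℂ = 0) : PA f A x = 0 := by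
  have h1 : x ∈ (KA f A)ᗮ := by
    rw [KA, Submodule.orthogonal_closure, Submodule.mem_orthogonal]
    intro u hu
    induction hu using Submodule.span_induction with
    | mem y hy => obtain ⟨n, hn, rfl⟩ := hy; exact h n hn
    | zero => exact inner_zero_left _
    | add y z _ _ h1 h2 => rw [inner_add_left, h1, h2, add_zero]
    | smul c y _ h1 => rw [inner_smul_left, h1, mul_zero]
  exact (Submodule.starProjection_apply_eq_zero_iff (KA f A)).2 h1

theorem inner_PA_comm (v w : H) : ⟪PA f A v, w⟫_ℂ = ⟪v, PA f A w⟫_ℂ :=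
  Submodule.inner_starProjection_left_eq_right _ _ _

theorem PA_idem (v : H) : PA f A (PA f A v) = PA f A v :=
  (Submodule.starProjection_eq_self_iff).2 (PA_mem v)

theorem PA_sub_idem {B : Set ℕ} (h : B ⊆ A) (v : H) : PA f A (PA f B v) = PA f B v := by
  refine (Submodule.starProjection_eq_self_iff).2 ?_
  have h1 : KA f B ≤ KA f A := Submodule.topologicalClosure_mono
    (Submodule.span_mono (Set.image_mono h))
  exact h1 (PA_mem v)

theorem inner_self_PA (v : H) : ⟪v, PA f A v⟫_ℂ = ((‖PA f A v‖ ^ 2 : ℝ) : ℂ) := by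
  rw [← PA_idem, ← inner_PA_comm, PA_idem, inner_self_eq_norm_sq_to_K]
  norm_cast

variable (hf : Orthonormal ℂ f)

include hf in
theorem inner_PA_not {n : ℕ} (hn : n ∉ A) (v : H) : ⟪f n, PA f A v⟫_ℂ = 0 := by
  rw [← inner_PA_comm]
  have h1 : PA f A (f n) = 0 := by
    apply PA_eq_zero
    intro m hm
    exact hf.2 (fun h => hn (h ▸ hm))
  rw [h1, inner_zero_left]

include hf in
theorem PA_disj {B C : Set ℕ} (h : Disjoint B C) (v : H) : PA f B (PA f C v) = 0 := by
  apply PA_eq_zero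
  intro n hn
  exact inner_PA_not hf (fun h' => (Set.disjoint_left.1 h) hn h') v

include hf in
theorem norm_PA_add {B C : Set ℕ} (h : Disjoint B C) (hB : B ⊆ A) (hC : C ⊆ A) (v : H) :
    ‖PA f B v‖ ^ 2 + ‖PA f C v‖ ^ 2 ≤ ‖PA f A v‖ ^ 2 := by
  set w := PA f B v + PA f C v with hw
  have h1 : ⟪PA f B v, PA f C v⟫_ℂ = 0 := by
    rw [inner_PA_comm, PA_disj hf h, inner_zero_right]
  have h2 : ‖w‖ ^ 2 = ‖PA f B v‖ ^ 2 + ‖PA f C v‖ ^ 2 := by
    have h3 := norm_add_sq (𝕜 := ℂ) (PA f B v) (PA f C v)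
    rw [h1] at h3
    rw [hw]
    simpa using h3
  have h3 : ⟪v, w⟫_ℂ = ((‖w‖ ^ 2 : ℝ) : ℂ) := by
    rw [h2, hw, inner_add_right, inner_self_PA, inner_self_PA]
    push_cast
    ring
  have h4 : ⟪v, w⟫_ℂ = ⟪PA f A v, w⟫_ℂ := by
    rw [inner_PA_comm, hw, map_add, PA_sub_idem hB, PA_sub_idem hC]
  have h5 : ‖w‖ ^ 2 ≤ ‖PA f A v‖ * ‖w‖ := by
    have h6 := norm_inner_le_norm (𝕜 := ℂ) (PA f A v) w
    rw [← h4, h3, Complex.norm_real, Real.norm_of_nonneg (by positivity)] at h6
    exact h6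
  rw [← h2]
  by_cases hw0 : ‖w‖ = 0
  · rw [hw0, zero_pow two_ne_zero]; positivity
  · have hw1 : 0 < ‖w‖ := lt_of_le_of_ne (norm_nonneg _) (Ne.symm hw0)
    have h7 : ‖w‖ ≤ ‖PA f A v‖ := by
      rw [sq] at h5
      exact le_of_mul_le_mul_right h5 hw1
    gcongr

include hf in
theorem norm_PA_le_of {B F : Set ℕ} (h : A ⊆ B ∪ F) {x : H} (hx : ∀ n ∈ F, ⟪f n, x⟫_ℂ = 0) :
    ‖PA f A x‖ ≤ ‖PA f B x‖ := by
  have h1 : PA f A (x - PA f B x) = 0 := by
    apply PA_eq_zero
    intro n hn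
    rw [inner_sub_right]
    by_cases hB : n ∈ B
    · rw [inner_PA hB, sub_self]
    · rw [inner_PA_not hf hB, sub_zero]
      exact hx n ((h hn).resolve_left hB)
  rw [map_sub, sub_eq_zero] at h1
  rw [h1]
  exact norm_PA_le _

theorem exists_PA_mem {L : Ideal (H →L[ℂ] H)} [hmax : L.IsMaximal] (𝔑 : Net L)
    (hf : Orthonormal ℂ f) : ∃ A : Set ℕ, A.Infinite ∧ PA f A ∈ L := by
  obtain ⟨A, hA, h0⟩ := exists_null (fun A => (𝔑.κ (PA f A) (PA f A)).re)
    (fun A => 𝔑.κ_self_re_nonneg _)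
    (by
      intro A B C h hB hC
      refine le_of_tendsto_of_tendsto' ((𝔑.tendsto_norm_sq (PA f B)).add
        (𝔑.tendsto_norm_sq (PA f C))) (𝔑.tendsto_norm_sq (PA f A)) (fun i => ?_)
      exact norm_PA_add hf h hB hC _)
    (by
      intro A B F hF h
      refine le_of_tendsto_of_tendsto (𝔑.tendsto_norm_sq (PA f A))
        (𝔑.tendsto_norm_sq (PA f B)) ?_
      have h1 : ∀ᶠ i in (𝔑.U : Filter 𝔑.ι), ∀ n ∈ F, ⟪f n, 𝔑.x i⟫_ℂ = 0 :=
        (eventually_all_finite hF).2 (fun n _ => 𝔑.orth (f n))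
      filter_upwards [h1] with i hi
      have h2 := norm_PA_le_of hf h hi
      gcongr)
  refine ⟨A, hA, 𝔑.mem_of_κ ?_⟩
  rw [𝔑.κ_self_eq]
  exact_mod_cast h0

end

end Pool.Agent.H80.HD
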